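import Pool.Agent.Helper794_NC.Inj

set_option autoImplicit false

namespace Pool.Agent.Helper794NC

variable {G : Type*} [Group G] {Ψ : Type*} [AddCommGroup Ψ] [Module ℚ Ψ]

/-- commuting locally unipotent action without nonzero fixed vectors -/
structure UAct (ρ : G →* Module.End ℚ Ψ) : Prop where
  comm : ∀ g h, Commute (ρ g) (ρ h)
  unip : ∀ g, LU (ρ g)
  fix : ∀ x, (∀ g, ρ g x = x) → x = 0

variable {ρ : G →* Module.End ℚ Ψ}

lemma UAct.inv_apply (g : G) (x : Ψ) : ρ g⁻¹ (ρ g x) = x := by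
  rw [← Module.End.mul_apply, ← map_mul, inv_mul_cancel, map_one, Module.End.one_apply]

lemma UAct.apply_inv (g : G) (x : Ψ) : ρ g (ρ g⁻¹ x) = x := by
  rw [← Module.End.mul_apply, ← map_mul, mul_inv_cancel, map_one, Module.End.one_apply]

/-- injectivity modulo a finite dimensional subspace -/
theorem UAct.exists_inj (hρ : UAct ρ) (Q : Submodule ℚ Ψ) [FiniteDimensional ℚ Q] :
    ∃ g : G, ∀ l ∈ Q, lg (ρ g) l ∈ Q → l = 0 := by
  obtain ⟨_, ⟨g, rfl⟩, hg⟩ := Helper794NC.exists_inj (Set.range fun g => lg (ρ g)) ⟨_, 1, rfl⟩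
    (by
      rintro _ ⟨g, rfl⟩ _ ⟨h, rfl⟩
      refine ⟨g * h, ?_⟩
      show lg (ρ (g * h)) = _
      rw [map_mul, lg_mul (hρ.unip g) (hρ.unip h) (hρ.comm g h)])
    (by
      rintro _ ⟨g, rfl⟩ _ ⟨h, rfl⟩
      exact lg_commute (hρ.unip h) ((lg_commute (hρ.unip g) (hρ.comm h g)).symm))
    (by
      rintro _ ⟨g, rfl⟩ x
      exact lg_nil (hρ.unip g) x)
    (by
      intro x hx
      apply hρ.fix
      intro g
      exact lg_eq_zero (hρ.unip g) (hx _ ⟨g, rfl⟩))
    Q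
  exact ⟨g, hg⟩

lemma UAct.lg_pow (hρ : UAct ρ) (g : G) (M : ℕ) : lg (ρ (g ^ M)) = (M : ℚ) • lg (ρ g) := by
  induction M with
  | zero =>
    ext x
    have h1 : ((ρ (g ^ 0) - 1) ^ 1 : Module.End ℚ Ψ) x = 0 := by simp
    rw [lg_apply (hρ.unip _) h1, lsum_apply, Finset.sum_range_one, bin_zero_coeff_one]
    simp
  | succ M ih =>
    rw [pow_succ, map_mul, lg_mul (hρ.unip _) (hρ.unip g) (hρ.comm _ _), ih]
    push_cast
    rw [add_smul, one_smul]

/-- `1 + ρ g + ⋯ + ρ g ^ (M-1)` is injective -/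
lemma UAct.theta_inj (hρ : UAct ρ) (g : G) (M : ℕ) (hM : 0 < M) (x : Ψ)
    (h : (∑ i ∈ Finset.range M, (ρ g) ^ i) x = 0) : x = 0 := by
  have h1 : (ρ g - 1) * (∑ i ∈ Finset.range M, (ρ g) ^ i) = (ρ g) ^ M - 1 := mul_geom_sum _ _
  have h2 : ((ρ g) ^ M - 1) x = 0 := by rw [← h1, Module.End.mul_apply, h, map_zero]
  have h3 : ρ (g ^ M) x = x := by
    rw [map_pow]; rw [LinearMap.sub_apply, Module.End.one_apply, sub_eq_zero] at h2; exact h2
  have h4 : lg (ρ (g ^ M)) x = 0 := by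
    have h5 : ((ρ (g ^ M) - 1) ^ 1 : Module.End ℚ Ψ) x = 0 := by
      rw [pow_one, LinearMap.sub_apply, h3, Module.End.one_apply, sub_self]
    rw [lg_apply (hρ.unip _) h5, lsum_apply, Finset.sum_range_one, bin_zero_coeff_one, zero_smul]
  rw [hρ.lg_pow, LinearMap.smul_apply] at h4
  have h6 : lg (ρ g) x = 0 := by
    rcases smul_eq_zero.1 h4 with h7 | h7
    · exact absurd h7 (by exact_mod_cast hM.ne')
    · exact h7
  have h8 := lg_eq_zero (hρ.unip g) h6
  have h9 : ∀ i : ℕ, ((ρ g) ^ i) x = x := by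
    intro i
    induction i with
    | zero => simp
    | succ i ih => rw [pow_succ, Module.End.mul_apply, h8, ih]
  rw [LinearMap.sum_apply, Finset.sum_congr rfl fun i _ => h9 i, Finset.sum_const, Finset.card_range,
    ← Nat.cast_smul_eq_nsmul ℚ] at h
  rcases smul_eq_zero.1 h with h7 | h7
  · exact absurd h7 (by exact_mod_cast hM.ne')
  · exact h7

/-- a generic vector for a finite dimensional space -/
theorem UAct.exists_generic (hρ : UAct ρ) (Q₀ : Submodule ℚ Ψ) [FiniteDimensional ℚ Q₀] :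
    ∃ b : Ψ, ∀ h : Module.End ℚ Ψ, (∀ g, Commute h (ρ g)) → (∀ x ∈ Q₀, h x ∈ Q₀) → h b ∈ Q₀ →
      (∀ x ∈ Q₀, h x = 0) ∧ h b = 0 := by
  have main : ∀ L : List Ψ, (∀ x ∈ L, x ∈ Q₀) → ∀ Q : Submodule ℚ Ψ, FiniteDimensional ℚ Q → Q₀ ≤ Q →
      ∃ b : Ψ, ∀ h : Module.End ℚ Ψ, (∀ g, Commute h (ρ g)) → (∀ x ∈ Q₀, h x ∈ Q₀) → h b ∈ Q →
      (∀ x ∈ L, h x = 0) ∧ h b = 0 := by
    intro L
    induction L with
    | nil =>
      intro _ Q _ _
      exact ⟨0, fun h _ _ _ => ⟨by simp, map_zero h⟩⟩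
    | cons k L ih =>
      intro hL Q hQ hQ₀
      obtain ⟨w, hw⟩ := hρ.exists_inj Q
      obtain ⟨b, hb⟩ := ih (fun x hx => hL x (List.mem_cons_of_mem _ hx)) (Q ⊔ Q₀.map (lg (ρ w)))
        inferInstance (hQ₀.trans le_sup_left)
      refine ⟨lg (ρ w) k + b, fun h hc hpres hmem => ?_⟩
      have hk : k ∈ Q₀ := hL k List.mem_cons_self
      have hcw : h (lg (ρ w) k) = lg (ρ w) (h k) :=
        LinearMap.congr_fun (lg_commute (hρ.unip w) (hc w)).eq k
      rw [map_add, hcw] at hmem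
      have h1 : h b ∈ Q ⊔ Q₀.map (lg (ρ w)) := by
        have h2 : h b = (lg (ρ w) (h k) + h b) - lg (ρ w) (h k) := by abel
        rw [h2]
        exact Submodule.sub_mem _ (Submodule.mem_sup_left hmem)
          (Submodule.mem_sup_right ⟨h k, hpres k hk, rfl⟩)
      obtain ⟨h3, h4⟩ := hb h hc hpres h1
      rw [h4, add_zero] at hmem
      have h5 : h k = 0 := hw _ (hQ₀ (hpres k hk)) hmem
      refine ⟨?_, ?_⟩
      · intro x hx
        rcases List.mem_cons.1 hx with rfl | hx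
        · exact h5
        · exact h3 x hx
      · rw [map_add, hcw, h5, map_zero, h4, add_zero]
  obtain ⟨S, hS⟩ := (Submodule.fg_iff_finiteDimensional Q₀).2 inferInstance
  obtain ⟨b, hb⟩ := main S.toList (fun x hx => hS ▸ Submodule.subset_span (by simpa using hx)) Q₀
    inferInstance le_rfl
  refine ⟨b, fun h hc hpres hmem => ?_⟩
  obtain ⟨h1, h2⟩ := hb h hc hpres hmem
  refine ⟨?_, h2⟩
  have h3 : Q₀ ≤ LinearMap.ker h := by
    rw [← hS, Submodule.span_le]
    intro x hx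
    exact h1 x (by simpa using hx)
  exact fun x hx => h3 hx

/-- finitely many elements suffice to detect nonzero vectors of a finite dimensional space -/
theorem UAct.exists_finset (hρ : UAct ρ) (Q : Submodule ℚ Ψ) [FiniteDimensional ℚ Q] :
    ∃ S : Finset G, ∀ x ∈ Q, (∀ v ∈ S, ρ v x = x) → x = 0 := by
  classical
  let C : Finset G → Submodule ℚ Ψ := fun S => Q ⊓ ⨅ v ∈ S, LinearMap.ker (ρ v - 1)
  have hC : ∀ S x, x ∈ C S ↔ x ∈ Q ∧ ∀ v ∈ S, ρ v x = x := by
    intro S x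
    simp only [C, Submodule.mem_inf, Submodule.mem_iInf, LinearMap.mem_ker, LinearMap.sub_apply,
      Module.End.one_apply, sub_eq_zero]
  have hfd : ∀ S, FiniteDimensional ℚ (C S) := fun S => Submodule.finiteDimensional_of_le inf_le_left
  obtain ⟨S, hS⟩ : ∃ S : Finset G, ∀ S', Module.finrank ℚ (C S) ≤ Module.finrank ℚ (C S') := by
    obtain ⟨S, hS⟩ := Nat.sInf_mem (Set.range_nonempty fun S : Finset G => Module.finrank ℚ (C S))
    refine ⟨S, fun S' => ?_⟩
    have hS' : Module.finrank ℚ (C S) = _ := hS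
    rw [hS']
    exact Nat.sInf_le ⟨S', rfl⟩
  refine ⟨S, fun x hx hxS => ?_⟩
  apply hρ.fix
  intro v
  have hle : C (insert v S) ≤ C S := by
    intro y hy
    rw [hC] at hy ⊢
    exact ⟨hy.1, fun w hw => hy.2 w (Finset.mem_insert_of_mem hw)⟩
  have hfd' := hfd S
  have heq : C (insert v S) = C S := Submodule.eq_of_le_of_finrank_le hle (hS _)
  have hxC : x ∈ C S := (hC S x).2 ⟨hx, hxS⟩
  rw [← heq, hC] at hxC
  exact hxC.2 v (Finset.mem_insert_self _ _)

/-- finitely generated stable hulls, integral version -/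
theorem exists_hull (hcomm : ∀ g h, Commute (ρ g) (ρ h)) (hunip : ∀ g, LU (ρ g)) (S : Finset G)
    (L : Submodule ℤ Ψ) (hL : L.FG) :
    ∃ L' : Submodule ℤ Ψ, L'.FG ∧ L ≤ L' ∧ ∀ s ∈ S, (∀ x ∈ L', ρ s x ∈ L') ∧ (∀ x ∈ L', ρ s⁻¹ x ∈ L') := by
  classical
  induction S using Finset.induction_on with
  | empty => exact ⟨L, hL, le_rfl, by simp⟩
  | insert s S _ ih =>
    obtain ⟨L₁, hL₁, hLL₁, hstab⟩ := ih
    obtain ⟨m, hm⟩ : ∃ m : ℕ, ∀ x ∈ L₁, ((ρ s - 1) ^ m : Module.End ℚ Ψ) x = 0 := by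
      obtain ⟨F, hF⟩ := hL₁
      have : ∀ x : Ψ, ∃ n : ℕ, ((ρ s - 1) ^ n : Module.End ℚ Ψ) x = 0 := hunip s
      choose f hf using this
      refine ⟨F.sup f, fun x hx => ?_⟩
      rw [← hF] at hx
      induction hx using Submodule.span_induction with
      | mem x hx => exact pow_apply_zero_of_le (hf x) (Finset.le_sup (f := f) hx)
      | zero => rw [map_zero]
      | add x y _ _ h1 h2 => rw [map_add, h1, h2, add_zero]
      | smul a x _ h1 => rw [map_zsmul, h1, smul_zero]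
    let δ : ℕ → (Ψ →ₗ[ℤ] Ψ) := fun i => ((ρ s - 1) ^ i : Module.End ℚ Ψ).toAddMonoidHom.toIntLinearMap
    have hδ : ∀ i x, δ i x = ((ρ s - 1) ^ i : Module.End ℚ Ψ) x := fun i x => rfl
    let L₂ : Submodule ℤ Ψ := ⨆ i : Fin (m + 1), L₁.map (δ i)
    have hL₂fg : L₂.FG := Submodule.fg_iSup _ fun i => hL₁.map _
    have hmemL₂ : ∀ i : ℕ, ∀ x ∈ L₁, ((ρ s - 1) ^ i : Module.End ℚ Ψ) x ∈ L₂ := by
      intro i x hx
      rcases le_or_gt i m with h | h
      · exact (le_iSup (fun i : Fin (m + 1) => L₁.map (δ i)) ⟨i, by omega⟩) ⟨x, hx, rfl⟩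
      · rw [pow_apply_zero_of_le (hm x hx) h.le]; exact L₂.zero_mem
    have hind : ∀ (P : Module.End ℚ Ψ), (∀ i : ℕ, ∀ x ∈ L₁, P (((ρ s - 1) ^ i : Module.End ℚ Ψ) x) ∈ L₂) →
        ∀ y ∈ L₂, P y ∈ L₂ := by
      intro P hP y hy
      have hle : L₂ ≤ L₂.comap P.toAddMonoidHom.toIntLinearMap := by
        refine iSup_le fun i => ?_
        rintro _ ⟨x, hx, rfl⟩
        exact hP i x hx
      exact hle hy
    have hδL₂ : ∀ y ∈ L₂, (ρ s - 1) y ∈ L₂ := by
      apply hind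
      intro i x hx
      rw [← Module.End.mul_apply, ← pow_succ']
      exact hmemL₂ (i + 1) x hx
    have hρs : ∀ y ∈ L₂, ρ s y ∈ L₂ := by
      intro y hy
      have h1 : ρ s y = (ρ s - 1) y + y := by simp
      rw [h1]
      exact L₂.add_mem (hδL₂ y hy) hy
    have hinv : ∀ k : ℕ, ∀ y ∈ L₂, ((ρ s - 1) ^ k : Module.End ℚ Ψ) y = 0 → ρ s⁻¹ y ∈ L₂ := by
      intro k
      induction k with
      | zero =>
        intro y _ h
        have h0 : y = 0 := by simpa using h
        rw [h0, map_zero]; exact L₂.zero_mem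
      | succ k ihk =>
        intro y hy h
        have h1 : ρ s⁻¹ y = y - ρ s⁻¹ ((ρ s - 1) y) := by
          rw [LinearMap.sub_apply, map_sub, UAct.inv_apply, Module.End.one_apply]; abel
        rw [h1]
        refine L₂.sub_mem hy (ihk _ (hδL₂ y hy) ?_)
        rw [← Module.End.mul_apply, ← pow_succ]; exact h
    refine ⟨L₂, hL₂fg, ?_, ?_⟩
    · intro x hx
      have := hmemL₂ 0 x (hLL₁ hx)
      rwa [pow_zero, Module.End.one_apply] at this
    · intro t ht
      rcases Finset.mem_insert.1 ht with rfl | ht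
      · refine ⟨hρs, fun y hy => ?_⟩
        obtain ⟨k, hk⟩ := hunip t y
        exact hinv k y hy hk
      · have hct : ∀ t' : G, ∀ i : ℕ, ∀ x, ρ t' (((ρ s - 1) ^ i : Module.End ℚ Ψ) x) =
            ((ρ s - 1) ^ i : Module.End ℚ Ψ) (ρ t' x) := by
          intro t' i x
          have hc : Commute (ρ t') ((ρ s - 1) ^ i) :=
            ((hcomm t' s).sub_right (Commute.one_right _)).pow_right i
          exact LinearMap.congr_fun hc.eq x
        refine ⟨hind _ fun i x hx => ?_, hind _ fun i x hx => ?_⟩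
        · rw [hct]; exact hmemL₂ i _ ((hstab t ht).1 x hx)
        · rw [hct]; exact hmemL₂ i _ ((hstab t ht).2 x hx)

/-- finite dimensional stable hulls -/
theorem exists_hullQ (hcomm : ∀ g h, Commute (ρ g) (ρ h)) (hunip : ∀ g, LU (ρ g)) (S : Finset G)
    (F : Finset Ψ) :
    ∃ Q : Submodule ℚ Ψ, FiniteDimensional ℚ Q ∧ (∀ x ∈ F, x ∈ Q) ∧
      ∀ s ∈ S, (∀ x ∈ Q, ρ s x ∈ Q) ∧ (∀ x ∈ Q, ρ s⁻¹ x ∈ Q) := by
  obtain ⟨L', hfg, hle, hst⟩ := exists_hull hcomm hunip S (Submodule.span ℤ (F : Set Ψ)) ⟨F, rfl⟩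
  refine ⟨Submodule.span ℚ (L' : Set Ψ), ?_, ?_, ?_⟩
  · obtain ⟨F', hF'⟩ := hfg
    have h1 : Submodule.span ℚ (L' : Set Ψ) ≤ Submodule.span ℚ (F' : Set Ψ) := by
      rw [Submodule.span_le]
      intro x hx
      rw [SetLike.mem_coe, ← hF'] at hx
      induction hx using Submodule.span_induction with
      | mem x hx => exact Submodule.subset_span hx
      | zero => exact Submodule.zero_mem _
      | add x y _ _ h1 h2 => exact Submodule.add_mem _ h1 h2
      | smul a x _ h1 => exact Submodule.smul_of_tower_mem _ a h1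
    have h2 : FiniteDimensional ℚ (Submodule.span ℚ (F' : Set Ψ)) := FiniteDimensional.span_finset ℚ F'
    exact Submodule.finiteDimensional_of_le h1
  · intro x hx
    exact Submodule.subset_span (hle (Submodule.subset_span hx))
  · have gen : ∀ P : Module.End ℚ Ψ, (∀ x ∈ L', P x ∈ L') → ∀ x ∈ Submodule.span ℚ (L' : Set Ψ),
        P x ∈ Submodule.span ℚ (L' : Set Ψ) := by
      intro P hP x hx
      have : Submodule.span ℚ (L' : Set Ψ) ≤ (Submodule.span ℚ (L' : Set Ψ)).comap P := by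
        rw [Submodule.span_le]
        intro y hy
        exact Submodule.subset_span (hP y hy)
      exact this hx
    intro s hs
    exact ⟨gen _ (hst s hs).1, gen _ (hst s hs).2⟩

/-- the pointwise action on families of vectors -/
def piAct (ρ : G →* Module.End ℚ Ψ) (ι : Type*) : G →* Module.End ℚ (ι → Ψ) where
  toFun g := LinearMap.pi fun i => ρ g ∘ₗ LinearMap.proj i
  map_one' := by ext; simp
  map_mul' g h := by
    apply LinearMap.ext
    intro x
    ext i
    simp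

lemma piAct_apply (ρ : G →* Module.End ℚ Ψ) (ι : Type*) (g : G) (x : ι → Ψ) (i : ι) :
    piAct ρ ι g x i = ρ g (x i) := rfl

lemma UAct.pi (hρ : UAct ρ) (ι : Type*) [Fintype ι] : UAct (piAct ρ ι) where
  comm g h := by
    apply LinearMap.ext
    intro x
    ext i
    exact LinearMap.congr_fun (hρ.comm g h).eq (x i)
  unip g := by
    intro x
    have hpow : ∀ n : ℕ, ∀ y : ι → Ψ, ∀ i, ((piAct ρ ι g - 1) ^ n : Module.End ℚ (ι → Ψ)) y i =
        ((ρ g - 1) ^ n : Module.End ℚ Ψ) (y i) := by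
      intro n
      induction n with
      | zero => intro y i; simp
      | succ n ih =>
        intro y i
        rw [pow_succ, Module.End.mul_apply, ih, pow_succ, Module.End.mul_apply]
        rfl
    have : ∀ i, ∃ n : ℕ, ((ρ g - 1) ^ n : Module.End ℚ Ψ) (x i) = 0 := fun i => hρ.unip g (x i)
    choose f hf using this
    refine ⟨Finset.univ.sup f, ?_⟩
    ext i
    rw [hpow]
    exact pow_apply_zero_of_le (hf i) (Finset.le_sup (f := f) (Finset.mem_univ i))
  fix x hx := by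
    ext i
    apply hρ.fix
    intro g
    exact congrFun (hx g) i

end Pool.Agent.Helper794NC
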