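import Mathlib

set_option autoImplicit false

namespace Pool.Agent.Helper794NC

universe u v

open TensorProduct

/-- rationalization of a torsion-free abelian group with a group action -/
theorem exists_rat (M : Type u) [AddCommGroup M] (htf : ∀ (n : ℕ) (x : M), 0 < n → n • x = 0 → x = 0)
    (G : Type v) [Group G] (c : G →* Module.End ℤ M) :
    ∃ (V : Type u) (_ : AddCommGroup V) (_ : Module ℚ V) (ι : M →+ V) (ρ : G →* Module.End ℚ V),
      Function.Injective ι ∧ (∀ x : V, ∃ n : ℕ, 0 < n ∧ ∃ a, n • x = ι a) ∧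
      ∀ g a, ρ g (ι a) = ι (c g a) := by
  have hloc : IsLocalizedModule (nonZeroDivisors ℤ) (TensorProduct.mk ℤ ℚ M 1) :=
    (isLocalizedModule_iff_isBaseChange (nonZeroDivisors ℤ) ℚ _).2 (TensorProduct.isBaseChange ℤ M ℚ)
  let ρ : G →* Module.End ℚ (ℚ ⊗[ℤ] M) :=
    { toFun := fun g => (c g).baseChange ℚ
      map_one' := by
        rw [map_one]
        exact LinearMap.baseChange_id
      map_mul' := by
        intro g h
        rw [map_mul]
        exact LinearMap.baseChange_comp (c h) (c g) }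
  refine ⟨ℚ ⊗[ℤ] M, inferInstance, inferInstance, (TensorProduct.mk ℤ ℚ M 1).toAddMonoidHom, ρ, ?_, ?_, ?_⟩
  · rw [injective_iff_map_eq_zero]
    intro a ha
    have h1 : TensorProduct.mk ℤ ℚ M 1 a = TensorProduct.mk ℤ ℚ M 1 0 := by
      rw [map_zero]; exact ha
    obtain ⟨⟨s, hs⟩, hsa⟩ := (IsLocalizedModule.eq_iff_exists (nonZeroDivisors ℤ) _).1 h1
    have hs0 : s ≠ 0 := nonZeroDivisors.ne_zero hs
    have h2 : s • a = 0 := by
      have : s • a = s • (0 : M) := hsa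
      rwa [smul_zero] at this
    apply htf s.natAbs a (Int.natAbs_pos.2 hs0)
    rcases Int.natAbs_eq s with h3 | h3
    · rw [h3, Nat.cast_smul_eq_nsmul] at h2; exact h2
    · rw [h3, neg_smul, neg_eq_zero, Nat.cast_smul_eq_nsmul] at h2; exact h2
  · intro x
    obtain ⟨⟨a, ⟨s, hs⟩⟩, hx⟩ := IsLocalizedModule.surj (nonZeroDivisors ℤ) (TensorProduct.mk ℤ ℚ M 1) x
    have hs0 : s ≠ 0 := nonZeroDivisors.ne_zero hs
    have hx' : s • x = TensorProduct.mk ℤ ℚ M 1 a := hx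
    refine ⟨s.natAbs, Int.natAbs_pos.2 hs0, ?_⟩
    rcases Int.natAbs_eq s with h3 | h3
    · refine ⟨a, ?_⟩
      rw [h3, Nat.cast_smul_eq_nsmul] at hx'; exact hx'
    · refine ⟨-a, ?_⟩
      rw [h3, neg_smul, Nat.cast_smul_eq_nsmul] at hx'
      rw [map_neg]
      exact (neg_eq_iff_eq_neg.1 hx')
  · intro g a
    show (c g).baseChange ℚ ((1 : ℚ) ⊗ₜ[ℤ] a) = (1 : ℚ) ⊗ₜ[ℤ] (c g a)
    rw [LinearMap.baseChange_tmul]

end Pool.Agent.Helper794NC
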