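import Pool.Agent.Helper794_NC.StepOne

set_option autoImplicit false

namespace Pool.Agent.Helper794NC

variable {G : Type*} [Group G] {V : Type*} [AddCommGroup V] [Module ℚ V]

theorem Cocy.step_two {ρ : G →* Module.End ℚ V} {φ : G → G → V} (h : Cocy ρ φ) (D : Subgroup G)
    (hD : D.FG) (θ : G → V)
    (H : ∀ u : G, ∀ W : Finset G, ∃ ψ ∈ Fs φ (D ⊔ Subgroup.zpowers u), ∀ v ∈ W, ψ v = θ v - ρ u (θ v))
    (W₀ : Finset G) : ∃ ψ ∈ Fs φ D, ∀ v ∈ W₀, ψ v = θ v := by
  classical
  have hU := h.toUAct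
  have hP : UAct (piAct ρ W₀) := hU.pi W₀
  set ρ' := piAct ρ W₀ with hρ'
  let res : (G → V) →ₗ[ℤ] (W₀ → V) := LinearMap.funLeft ℤ V (Subtype.val : W₀ → G)
  have hres : ∀ x v, res x v = x v.1 := fun x v => rfl
  have hresact : ∀ w x, res (piAct ρ G w x) = ρ' w (res x) := fun w x => rfl
  set Λ : Submodule ℤ (W₀ → V) := (Fs φ D).map res with hΛdef
  -- `Λ` is finitely generated
  have hΛfg : Λ.FG := by
    obtain ⟨SD, hSD⟩ := hD
    obtain ⟨L', hL'fg, hLL', hL'st⟩ := exists_hull hP.comm hP.unip SD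
      (Submodule.span ℤ ((SD.image fun s => res (φ s) : Finset (W₀ → V)) : Set (W₀ → V))) ⟨_, rfl⟩
    have hle : Λ ≤ L' := by
      let K : Subgroup G :=
        { carrier := {w | (∀ x ∈ L', ρ' w x ∈ L') ∧ (∀ x ∈ L', ρ' w⁻¹ x ∈ L') ∧ res (φ w) ∈ L'}
          one_mem' := by
            refine ⟨by simp, by simp, ?_⟩
            have : φ 1 = 0 := by funext v; exact h.map_one' v
            rw [this, map_zero]; exact L'.zero_mem
          mul_mem' := by
            rintro a b ⟨h1, h2, h3⟩ ⟨h4, h5, h6⟩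
            refine ⟨fun x hx => ?_, fun x hx => ?_, ?_⟩
            · rw [map_mul, Module.End.mul_apply]; exact h1 _ (h4 _ hx)
            · rw [mul_inv_rev, map_mul, Module.End.mul_apply]; exact h5 _ (h2 _ hx)
            · have : φ (a * b) = φ a + piAct ρ G a (φ b) := by funext v; exact h.mul a b v
              rw [this, map_add, hresact]; exact L'.add_mem h3 (h1 _ h6)
          inv_mem' := by
            rintro a ⟨h1, h2, h3⟩
            refine ⟨h2, by simpa using h1, ?_⟩
            have : φ a⁻¹ = - piAct ρ G a⁻¹ (φ a) := by funext v; exact h.map_inv' a v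
            rw [this, map_neg, hresact]; exact L'.neg_mem (h2 _ h3) }
      have hDK : D ≤ K := by
        rw [← hSD, Subgroup.closure_le]
        intro s hs
        refine ⟨(hL'st s hs).1, (hL'st s hs).2, hLL' (Submodule.subset_span ?_)⟩
        exact Finset.mem_coe.2 (Finset.mem_image_of_mem _ hs)
      rw [hΛdef, Submodule.map_le_iff_le_comap]
      unfold Fs
      rw [Submodule.span_le]
      rintro _ ⟨d, hd, rfl⟩
      exact (hDK hd).2.2
    have hN : IsNoetherian ℤ L' := isNoetherian_of_fg_of_noetherian L' hL'fg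
    have h1 : (Λ.comap L'.subtype).FG := IsNoetherian.noetherian _
    have h2 := h1.map L'.subtype
    rwa [Submodule.map_comap_subtype, inf_eq_right.2 hle] at h2
  obtain ⟨F, hF⟩ := id hΛfg
  -- the rational space
  let Q : Submodule ℚ (W₀ → V) := Submodule.span ℚ ((F ∪ {res θ} : Finset (W₀ → V)) : Set (W₀ → V))
  have hQfd : FiniteDimensional ℚ Q := FiniteDimensional.span_finset ℚ _
  have hΛQ : ∀ x ∈ Λ, x ∈ Q := by
    intro x hx
    rw [← hF] at hx
    induction hx using Submodule.span_induction with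
    | mem x hx => exact Submodule.subset_span (Finset.mem_coe.2 (Finset.mem_union_left _ hx))
    | zero => exact Q.zero_mem
    | add x y _ _ h1 h2 => exact Q.add_mem h1 h2
    | smul a x _ h1 => exact Q.smul_of_tower_mem a h1
  have hθQ : res θ ∈ Q :=
    Submodule.subset_span (Finset.mem_coe.2 (Finset.mem_union_right _ (Finset.mem_singleton_self _)))
  obtain ⟨g, hg⟩ := hP.exists_inj Q
  obtain ⟨N, hNfg, hLN, hNst⟩ := exists_hull hP.comm hP.unip {g} (Λ ⊔ Submodule.span ℤ {res θ})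
    (hΛfg.sup ⟨{res θ}, by simp⟩)
  set T := ρ' g with hT
  have key : ∀ M : ℕ, 0 < M → ∃ J : ℕ, (T ^ (J * M)) ((T ^ M) (res θ) - res θ) ∈
      Submodule.span ℤ {y | ∃ j : ℕ, ∃ l ∈ Λ, y = (T ^ (j * M)) l} := by
    intro M hM
    obtain ⟨ψ, hψS, hψ⟩ := h.step_one D hD θ H W₀ g M hM
    set Z : Submodule ℤ (W₀ → V) := Submodule.span ℤ {y | ∃ j : ℕ, ∃ l ∈ Λ, y = (T ^ (j * M)) l} with hZ
    have hZst : ∀ J : ℕ, ∀ x ∈ Z, (T ^ (J * M)) x ∈ Z := by
      intro J x hx
      have : Z ≤ Z.comap (T ^ (J * M)).toAddMonoidHom.toIntLinearMap := by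
        conv_lhs => rw [hZ]
        rw [Submodule.span_le]
        rintro _ ⟨j, l, hl, rfl⟩
        show (T ^ (J * M)) ((T ^ (j * M)) l) ∈ Z
        rw [← Module.End.mul_apply, ← pow_add, ← add_mul]
        exact Submodule.subset_span ⟨_, l, hl, rfl⟩
      exact this hx
    have hgen : ∀ x ∈ Submodule.span ℤ {y : G → V | ∃ w ∈ Subgroup.zpowers (g ^ M), ∃ x ∈ Fs φ D,
        y = piAct ρ G w x}, ∃ J : ℕ, (T ^ (J * M)) (res x) ∈ Z := by
      intro x hx
      induction hx using Submodule.span_induction with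
      | mem x hx =>
        obtain ⟨w, ⟨k, hk⟩, y, hy, rfl⟩ := hx
        have hk' : (g ^ M) ^ k = w := hk
        refine ⟨k.natAbs, ?_⟩
        obtain ⟨j, hj⟩ : ∃ j : ℕ, (j : ℤ) = k.natAbs + k := ⟨(k.natAbs + k).toNat, by omega⟩
        have e1 : (T ^ (k.natAbs * M)) (res (piAct ρ G w y)) = (T ^ (j * M)) (res y) := by
          rw [hresact, hT, ← map_pow, ← map_pow, ← Module.End.mul_apply, ← map_mul, ← hk']
          congr 2
          rw [← zpow_natCast, ← zpow_natCast, ← zpow_natCast, ← zpow_mul, ← zpow_add]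
          congr 1
          push_cast
          rw [hj]
          push_cast
          ring
        rw [e1]
        exact Submodule.subset_span ⟨j, res y, ⟨y, hy, rfl⟩, rfl⟩
      | zero => exact ⟨0, by rw [map_zero, map_zero]; exact Z.zero_mem⟩
      | add x y _ _ h1 h2 =>
        obtain ⟨J1, h1⟩ := h1
        obtain ⟨J2, h2⟩ := h2
        refine ⟨J1 + J2, ?_⟩
        rw [map_add, map_add]
        refine Z.add_mem ?_ ?_
        · rw [add_comm J1 J2, add_mul, pow_add, Module.End.mul_apply]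
          exact hZst J2 _ h1
        · rw [add_mul, pow_add, Module.End.mul_apply]
          exact hZst J1 _ h2
      | smul a x _ h1 =>
        obtain ⟨J, h1⟩ := h1
        refine ⟨J, ?_⟩
        rw [map_zsmul, map_zsmul]
        exact Z.smul_mem a h1
    obtain ⟨J, hJ⟩ := hgen ψ hψS
    refine ⟨J, ?_⟩
    have e2 : (T ^ M) (res θ) - res θ = - res ψ := by
      funext v
      rw [Pi.sub_apply, Pi.neg_apply, hres, hres, hψ v.1 v.2, hT, ← map_pow]
      show ρ (g ^ M) (θ v) - θ v = _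
      abel
    rw [e2, map_neg]
    exact Z.neg_mem hJ
  obtain ⟨l, hl, n, hn, hmem⟩ := lattice_step (hP.unip g) N Λ hNfg (hNst g (Finset.mem_singleton_self g)).1
    (le_sup_left.trans hLN) (res θ)
    (hLN (Submodule.mem_sup_right (Submodule.mem_span_singleton_self _))) key
  have h1 : res θ - l = 0 := by
    apply hg _ (Q.sub_mem hθQ (hΛQ l hl))
    have h2 := hΛQ _ hmem
    have h3 : lg T (res θ - l) = ((n : ℚ)⁻¹) • (n • lg T (res θ - l)) := by
      rw [← Nat.cast_smul_eq_nsmul ℚ, smul_smul, inv_mul_cancel₀ (by exact_mod_cast hn.ne'), one_smul]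
    rw [h3]
    exact Q.smul_mem _ h2
  obtain ⟨ψ, hψ, hψl⟩ := hl
  refine ⟨ψ, hψ, fun v hv => ?_⟩
  have h4 : res θ = res ψ := by rw [hψl]; exact sub_eq_zero.1 h1
  exact (congrFun h4 ⟨v, hv⟩).symm

end Pool.Agent.Helper794NC
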