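import Pool.Agent.Helper794_NC.Seq
import Pool.Agent.Helper794_NC.Rat
import Pool.Agent.Helper794_NC.StepTwo

set_option autoImplicit false

open scoped commutatorElement

namespace Pool.Agent.Helper794NC

/-- **Core lemma.** Let `G` satisfy the normalizer condition and let `A` be a nontrivial torsion-free
abelian normal subgroup containing all commutators. Then `A` contains a nontrivial central element
of `G`. -/
theorem core {G : Type*} [Group G] (hN : NormalizerCondition G) (A : Subgroup G) [A.Normal]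
    (hab : ∀ a ∈ A, ∀ b ∈ A, a * b = b * a) (htf : ∀ (n : ℕ), ∀ a ∈ A, 0 < n → a ^ n = 1 → a = 1)
    (hcomm : ∀ x y : G, ⁅x, y⁆ ∈ A) (hA : A ≠ ⊥) :
    ∃ a ∈ A, a ≠ 1 ∧ ∀ g, g * a = a * g := by
  classical
  by_contra hcon
  push Not at hcon
  let _ : CommGroup A := { (inferInstance : Group A) with
    mul_comm := fun a b => Subtype.ext (hab a a.2 b b.2) }
  let M := Additive A
  let c : G →* Module.End ℤ M :=
    { toFun := fun g => (MonoidHom.toAdditive (MulAut.conjNormal g : MulAut A).toMonoidHom).toIntLinearMap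
      map_one' := by
        apply LinearMap.ext
        intro x
        apply Additive.toMul.injective
        apply Subtype.ext
        show ((MulAut.conjNormal (1 : G) (Additive.toMul x) : A) : G) = Additive.toMul x
        simp
      map_mul' := by
        intro g h
        apply LinearMap.ext
        intro x
        apply Additive.toMul.injective
        apply Subtype.ext
        show ((MulAut.conjNormal (g * h) (Additive.toMul x) : A) : G) =
          ((MulAut.conjNormal g (MulAut.conjNormal h (Additive.toMul x)) : A) : G)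
        simp }
  have hc : ∀ g (a : A), c g (Additive.ofMul a) = Additive.ofMul (MulAut.conjNormal g a) := fun g a => rfl
  obtain ⟨V, _, _, ι, ρ, hιinj, hιsurj, hιρ⟩ := exists_rat M (by
    intro n x hn hx
    apply Additive.toMul.injective
    apply Subtype.ext
    apply htf n _ (Additive.toMul x).2 hn
    have h1 : (Additive.toMul x : A) ^ n = 1 := congrArg Additive.toMul hx
    have h2 := congrArg Subtype.val h1
    rwa [Subgroup.coe_pow] at h2) G c
  -- the embedding
  let j : A → V := fun a => ι (Additive.ofMul a)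
  have hj1 : j 1 = 0 := map_zero ι
  have hjmul : ∀ a b : A, j (a * b) = j a + j b := fun a b => map_add ι _ _
  have hjinv : ∀ a : A, j a⁻¹ = - j a := fun a => map_neg ι _
  have hjρ : ∀ g (a : A), ρ g (j a) = j (MulAut.conjNormal g a) := by
    intro g a
    show ρ g (ι _) = _
    rw [hιρ, hc]
  have hjinj : ∀ a : A, j a = 0 → a = 1 := by
    intro a ha
    have h1 : ι (Additive.ofMul a) = ι 0 := by rw [map_zero]; exact ha
    exact Additive.ofMul.injective (hιinj h1)
  have hsurj : ∀ x : V, ∃ n : ℕ, 0 < n ∧ ∃ a : A, n • x = j a := by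
    intro x
    obtain ⟨n, hn, a, ha⟩ := hιsurj x
    exact ⟨n, hn, Additive.toMul a, ha⟩
  have hρA : ∀ a ∈ A, ρ a = 1 := by
    intro a ha
    apply LinearMap.ext
    intro x
    obtain ⟨n, hn, b, hb⟩ := hsurj x
    have h1 : ρ a (n • x) = n • x := by
      rw [hb, hjρ]
      congr 1
      apply Subtype.ext
      rw [MulAut.conjNormal_apply, hab a ha b b.2, mul_inv_cancel_right]
    rw [map_nsmul, ← Nat.cast_smul_eq_nsmul ℚ, ← Nat.cast_smul_eq_nsmul ℚ] at h1
    have hn' : (n : ℚ) ≠ 0 := by exact_mod_cast hn.ne'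
    have h2 := congrArg (fun y => (n : ℚ)⁻¹ • y) h1
    simp only [smul_smul, inv_mul_cancel₀ hn', one_smul] at h2
    exact h2
  -- iterated commutators
  have hjcomm : ∀ (g : G) (a : A), (⟨⁅(a : G), g⁆, hcomm _ _⟩ : A) = a * (MulAut.conjNormal g a)⁻¹ := by
    intro g a
    apply Subtype.ext
    show ⁅(a : G), g⁆ = (a : G) * ((MulAut.conjNormal g a : A) : G)⁻¹
    rw [MulAut.conjNormal_apply, commutatorElement_def]
    group
  have hLU : ∀ g, LU (ρ g) := by
    intro g x
    obtain ⟨n, hn, a, ha⟩ := hsurj x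
    let f : A → A := fun b => ⟨⁅(b : G), g⁆, hcomm _ _⟩
    let q : ℕ → A := fun k => f^[k] a
    have hqf : ∀ k, q (k + 1) = f (q k) := fun k => Function.iterate_succ_apply' f k a
    have hq : ∀ k, (q (k + 1) : G) = ⁅(q k : G), g⁆ := fun k => by rw [hqf]
    obtain ⟨k, hk⟩ := seq_mem hN (fun _ => g) (fun k => (q k : G)) hq
    have hk1 : q (k + 1) = 1 := by
      apply Subtype.ext
      rw [hq, OneMemClass.coe_one, commutatorElement_eq_one_iff_mul_comm]
      have h1 : (q k : G) ∈ Subgroup.zpowers g := by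
        rw [Subgroup.zpowers_eq_closure]
        refine Subgroup.closure_mono ?_ hk
        rintro _ ⟨_, rfl⟩; rfl
      obtain ⟨m, hm⟩ := h1
      have hm' : g ^ m = (q k : G) := hm
      rw [← hm']
      exact ((Commute.refl g).zpow_left m).eq
    have hqj : ∀ k, ((1 - ρ g) ^ k : Module.End ℚ V) (j a) = j (q k) := by
      intro k
      induction k with
      | zero => simp [q]
      | succ k ih =>
        rw [pow_succ', Module.End.mul_apply, ih]
        have h2 : q (k + 1) = q k * (MulAut.conjNormal g (q k))⁻¹ := by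
          rw [hqf]; exact hjcomm g (q k)
        rw [h2, hjmul, hjinv, LinearMap.sub_apply, Module.End.one_apply, hjρ, sub_eq_add_neg]
    refine ⟨k + 1, ?_⟩
    have h3 : ((ρ g - 1) ^ (k + 1) : Module.End ℚ V) (n • x) = 0 := by
      have h4 : (ρ g - 1 : Module.End ℚ V) = - (1 - ρ g) := by abel
      rw [ha, h4, neg_pow, Module.End.mul_apply, hqj, hk1, hj1, map_zero]
    rw [map_nsmul, ← Nat.cast_smul_eq_nsmul ℚ] at h3
    rcases smul_eq_zero.1 h3 with h5 | h5
    · exact absurd h5 (by exact_mod_cast hn.ne')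
    · exact h5
  let φ : G → G → V := fun d v => j ⟨⁅d, v⁆, hcomm d v⟩
  have hφA : ∀ (q : A) (v : G), φ q v = j q - ρ v (j q) := by
    intro q v
    show j _ = _
    rw [hjcomm v q, hjmul, hjinv, hjρ, sub_eq_add_neg]
  have hcocy : Cocy ρ φ :=
    { comm := by
        intro g h
        have h1 : ρ (g * h) = ρ (h * g) := by
          have h2 : g * h = ⁅g, h⁆ * (h * g) := by rw [commutatorElement_def]; group
          rw [h2, map_mul, hρA _ (hcomm g h), one_mul]
        show ρ g * ρ h = ρ h * ρ g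
        rw [← map_mul, ← map_mul, h1]
      unip := hLU
      fix := by
        intro x hx
        obtain ⟨n, hn, a, ha⟩ := hsurj x
        have h1 : (a : G) = 1 := by
          by_contra hne
          obtain ⟨g, hg⟩ := hcon a a.2 hne
          apply hg
          have h2 : j (MulAut.conjNormal g a) = j a := by
            rw [← hjρ, ← ha, map_nsmul, hx]
          have h3 : MulAut.conjNormal g a = a := by
            have h4 : j (MulAut.conjNormal g a * a⁻¹) = 0 := by
              rw [hjmul, hjinv, h2, add_neg_cancel]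
            exact mul_inv_eq_one.1 (hjinj _ h4)
          have h5 := congrArg Subtype.val h3
          rw [MulAut.conjNormal_apply] at h5
          exact mul_inv_eq_iff_eq_mul.1 h5
        have h2 : a = 1 := Subtype.ext h1
        rw [h2, hj1, ← Nat.cast_smul_eq_nsmul ℚ] at ha
        rcases smul_eq_zero.1 ha with h5 | h5
        · exact absurd h5 (by exact_mod_cast hn.ne')
        · exact h5
      mul := by
        intro d d' v
        show j _ = j _ + ρ d (j _)
        rw [hjρ, ← hjmul]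
        congr 1
        apply Subtype.ext
        show ⁅d * d', v⁆ = ⁅d, v⁆ * (MulAut.conjNormal d ⟨⁅d', v⁆, hcomm d' v⟩ : A)
        have h6 : ((MulAut.conjNormal d ⟨⁅d', v⁆, hcomm d' v⟩ : A) : G) = d * ⁅d', v⁆ * d⁻¹ := by
          rw [MulAut.conjNormal_apply]
        rw [h6, hab ⁅d, v⁆ (hcomm d v) (d * ⁅d', v⁆ * d⁻¹) (‹A.Normal›.conj_mem _ (hcomm d' v) d)]
        simp only [commutatorElement_def]
        group
      prin := by
        intro x
        obtain ⟨n, hn, a, ha⟩ := hsurj x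
        refine ⟨n, hn, a, hρA a a.2, fun v => ?_⟩
        rw [hφA, ← ha, map_nsmul, smul_sub] }
  -- the predicate
  let Wd : Subgroup G → G → Prop := fun D q => ∀ W : Finset G, ∃ ψ ∈ Fs φ D, ∀ v ∈ W, ψ v = φ q v
  have stepb : ∀ D : Subgroup G, D.FG → ∀ q ∈ A, (∀ u, Wd (D ⊔ Subgroup.zpowers u) ⁅q, u⁆) → Wd D q := by
    intro D hD q hq hu
    apply hcocy.step_two D hD (φ q)
    intro u W
    obtain ⟨ψ, hψ, hψv⟩ := hu u W
    refine ⟨ψ, hψ, fun v hv => ?_⟩
    rw [hψv v hv]
    have h1 := hφA ⟨⁅q, u⁆, hcomm q u⟩ v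
    have h2 := hφA ⟨q, hq⟩ v
    have h3 : j ⟨⁅q, u⁆, hcomm q u⟩ = j ⟨q, hq⟩ - ρ u (j ⟨q, hq⟩) := hφA ⟨q, hq⟩ u
    have h4 : φ ⁅q, u⁆ v = j ⟨⁅q, u⁆, hcomm q u⟩ - ρ v (j ⟨⁅q, u⁆, hcomm q u⟩) := h1
    have h5 : φ q v = j ⟨q, hq⟩ - ρ v (j ⟨q, hq⟩) := h2
    have h6 : ρ u (ρ v (j ⟨q, hq⟩)) = ρ v (ρ u (j ⟨q, hq⟩)) :=
      LinearMap.congr_fun (hcocy.comm u v).eq _
    rw [h4, h5, h3, map_sub, map_sub, h6]
    abel
  let St : Type _ := {p : Subgroup G × G // p.1.FG ∧ p.2 ∈ A ∧ ¬ Wd p.1 p.2}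
  have hnext : ∀ p : St, ∃ u : G, ¬ Wd (p.1.1 ⊔ Subgroup.zpowers u) ⁅p.1.2, u⁆ := by
    rintro ⟨⟨D, q⟩, hD, hq, hW⟩
    by_contra hne
    push Not at hne
    exact hW (stepb D hD q hq hne)
  choose nu hnu using hnext
  obtain ⟨q₀, hq₀A, hq₀⟩ : ∃ q ∈ A, q ≠ 1 := by
    by_contra hne
    push Not at hne
    exact hA ((Subgroup.eq_bot_iff_forall A).2 hne)
  have hstart : ¬ Wd ⊥ q₀ := by
    intro hW
    obtain ⟨g, hg⟩ := hcon q₀ hq₀A hq₀
    obtain ⟨ψ, hψ, hψv⟩ := hW {g}
    have hF0 : Fs φ (⊥ : Subgroup G) ≤ ⊥ := by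
      unfold Fs
      rw [Submodule.span_le]
      rintro _ ⟨d, hd, rfl⟩
      rw [SetLike.mem_coe, Subgroup.mem_bot] at hd
      subst hd
      show φ 1 ∈ (⊥ : Submodule ℤ (G → V))
      rw [Submodule.mem_bot]
      funext v
      exact hcocy.map_one' v
    have h0 : ψ = 0 := by simpa using hF0 hψ
    have h1 := hψv g (Finset.mem_singleton_self g)
    rw [h0] at h1
    have h2 : (⟨⁅q₀, g⁆, hcomm q₀ g⟩ : A) = 1 := hjinj _ h1.symm
    have h3 : ⁅q₀, g⁆ = 1 := congrArg Subtype.val h2
    rw [commutatorElement_eq_one_iff_mul_comm] at h3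
    exact hg h3.symm
  let p₀ : St := ⟨(⊥, q₀), ⟨∅, by simp⟩, hq₀A, hstart⟩
  let nxt : St → St := fun p => ⟨(p.1.1 ⊔ Subgroup.zpowers (nu p), ⁅p.1.2, nu p⁆),
    p.2.1.sup ⟨{nu p}, by rw [Finset.coe_singleton, ← Subgroup.zpowers_eq_closure]⟩, hcomm _ _, hnu p⟩
  let s : ℕ → St := fun n => Nat.rec p₀ (fun _ p => nxt p) n
  have hs : ∀ n, s (n + 1) = nxt (s n) := fun n => rfl
  let u : ℕ → G := fun n => nu (s n)
  let q : ℕ → G := fun n => (s n).1.2
  let D : ℕ → Subgroup G := fun n => (s n).1.1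
  have hq : ∀ n, q (n + 1) = ⁅q n, u n⁆ := fun n => rfl
  have hD0 : D 0 = ⊥ := rfl
  have hDs : ∀ n, D (n + 1) = D n ⊔ Subgroup.zpowers (u n) := fun n => rfl
  have hDmono : Monotone D := monotone_nat_of_le_succ fun n => by rw [hDs]; exact le_sup_left
  have huD : ∀ n, u n ∈ D (n + 1) := fun n => by
    rw [hDs]; exact (le_sup_right : Subgroup.zpowers (u n) ≤ _) (Subgroup.mem_zpowers _)
  obtain ⟨n, hn⟩ := seq_mem hN u q hq
  have hle : Subgroup.closure (Set.range u) ≤ ⨆ i, D i := by
    rw [Subgroup.closure_le]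
    rintro _ ⟨i, rfl⟩
    exact (le_iSup D (i + 1)) (huD i)
  obtain ⟨m, hm⟩ := (Subgroup.mem_iSup_of_directed hDmono.directed_le).1 (hle hn)
  have hk : ∀ k, q (n + k) ∈ D (max m (n + k)) := by
    intro k
    induction k with
    | zero => exact hDmono (le_max_left _ _) hm
    | succ k ih =>
      have h1 : q (n + (k + 1)) = ⁅q (n + k), u (n + k)⁆ := hq (n + k)
      rw [h1, commutatorElement_def]
      have h2 : q (n + k) ∈ D (max m (n + (k + 1))) := hDmono (by omega) ih
      have h3 : u (n + k) ∈ D (max m (n + (k + 1))) :=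
      hDmono (show n + k + 1 ≤ max m (n + (k + 1)) by omega) (huD (n + k))
      exact Subgroup.mul_mem _ (Subgroup.mul_mem _ (Subgroup.mul_mem _ h2 h3) (Subgroup.inv_mem _ h2))
        (Subgroup.inv_mem _ h3)
  have hfin : q (n + m) ∈ D (n + m) := by
    have := hk m
    rwa [max_eq_right (by omega)] at this
  apply (s (n + m)).2.2.2
  intro W
  exact ⟨φ (q (n + m)), Submodule.subset_span ⟨_, hfin, rfl⟩, fun v _ => rfl⟩

end Pool.Agent.Helper794NC
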