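import Pool.Agent.Helper794_NC.Log

set_option autoImplicit false

namespace Pool.Agent.Helper794NC

section rank

variable {Q X : Type*} [AddCommGroup Q] [Module ℚ Q] [FiniteDimensional ℚ Q] [AddCommGroup X]
  [Module ℚ X]

lemma exists_rank_gt (A B : Q →ₗ[ℚ] X) (e : Q) (he : A e = 0) (hBe : B e ∉ LinearMap.range A) :
    ∃ n : ℕ, Module.finrank ℚ (LinearMap.range A) <
      Module.finrank ℚ (LinearMap.range ((n : ℚ) • A + B)) := by
  obtain ⟨C, hC⟩ := Submodule.exists_isCompl (LinearMap.ker A)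
  let j : (C × ℚ) →ₗ[ℚ] X := (A.domRestrict C).coprod (LinearMap.toSpanSingleton ℚ X (B e))
  have hj : ∀ c : C, ∀ α : ℚ, j (c, α) = A c + α • B e := by
    intro c α
    simp [j, LinearMap.coprod_apply]
  have hAC : ∀ c : C, A c = 0 → c = 0 := by
    intro c hc
    have h1 : (c : Q) ∈ LinearMap.ker A ⊓ C := ⟨hc, c.2⟩
    rw [hC.inf_eq_bot, Submodule.mem_bot] at h1
    exact Subtype.ext h1
  have hjinj : LinearMap.ker j = ⊥ := by
    rw [LinearMap.ker_eq_bot']
    rintro ⟨c, α⟩ h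
    rw [hj] at h
    have hα : α = 0 := by
      by_contra hα
      apply hBe
      refine ⟨(-α⁻¹) • (c : Q), ?_⟩
      have h2 : A c = -(α • B e) := eq_neg_of_add_eq_zero_left h
      rw [map_smul, h2, smul_neg, neg_smul, neg_neg, smul_smul, inv_mul_cancel₀ hα, one_smul]
    rw [hα, zero_smul, add_zero] at h
    rw [hα, hAC c h]; rfl
  obtain ⟨π, hπ⟩ := LinearMap.exists_leftInverse_of_injective j hjinj
  let W : Module.End ℚ (C × ℚ) := π ∘ₗ B ∘ₗ C.subtype ∘ₗ LinearMap.fst ℚ C ℚ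
  obtain ⟨n, hn0, hn⟩ : ∃ n : ℕ, 0 < n ∧ ¬ W.HasEigenvalue (-(n : ℚ)) := by
    by_contra hcon
    push Not at hcon
    have hfin := W.finite_hasEigenvalue
    apply Set.not_injOn_infinite_finite_image (s := Set.Ioi (0 : ℕ)) (f := fun n : ℕ => (-(n : ℚ)))
      (Set.Ioi_infinite 0) (hfin.subset ?_)
    · intro a _ b _ hab
      simpa using hab
    · rintro _ ⟨m, hm, rfl⟩
      exact hcon m hm
  refine ⟨n, ?_⟩
  have hn' : (n : ℚ) ≠ 0 := by exact_mod_cast hn0.ne'
  -- the map `(c, α) ↦ (n A + B) (c + α e)` is injective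
  let L : (C × ℚ) →ₗ[ℚ] Q := C.subtype.coprod (LinearMap.toSpanSingleton ℚ Q e)
  have hL : ∀ c : C, ∀ α : ℚ, L (c, α) = c + α • e := by
    intro c α
    simp [L, LinearMap.coprod_apply]
  have hinj : LinearMap.ker ((((n : ℚ) • A + B) ∘ₗ L)) = ⊥ := by
    rw [LinearMap.ker_eq_bot']
    rintro ⟨c, α⟩ h
    rw [LinearMap.comp_apply, hL, LinearMap.add_apply, LinearMap.smul_apply, map_add, map_add, map_smul,
      map_smul, he, smul_zero, add_zero] at h
    have h1 : (n : ℚ) • A c = j ((n : ℚ) • c, 0) := by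
      rw [hj, zero_smul, add_zero]
      simp
    have h2 : α • B e = j (0, α) := by
      rw [hj]; simp
    have hπj : ∀ z, π (j z) = z := fun z => LinearMap.congr_fun hπ z
    have h3 : π ((n : ℚ) • A c + (B c + α • B e)) = 0 := by rw [h, map_zero]
    rw [map_add, map_add, h1, h2, hπj, hπj] at h3
    have h4 : W (c, α / n) = - ((n : ℚ) • (c, α / n)) := by
      have h5 : W (c, α / n) = π (B c) := rfl
      rw [h5]
      have h6 : ((n : ℚ) • ((c, α / n) : C × ℚ)) = ((n : ℚ) • c, 0) + ((0 : C), α) := by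
        rw [Prod.smul_mk, Prod.mk_add_mk, add_zero, zero_add, smul_eq_mul, mul_div_cancel₀ _ hn']
      rw [h6, eq_neg_iff_add_eq_zero, ← h3]
      abel
    by_contra hne
    apply hn
    apply Module.End.hasEigenvalue_of_hasEigenvector (x := (c, α / n))
    rw [Module.End.hasEigenvector_iff]
    refine ⟨?_, ?_⟩
    · rw [Module.End.mem_eigenspace_iff, h4, neg_smul]
    · intro h0
      apply hne
      rw [Prod.mk_eq_zero] at h0
      rw [h0.1]
      rcases div_eq_zero_iff.1 h0.2 with h7 | h7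
      · rw [h7]; rfl
      · exact absurd h7 hn'
  have hfr : Module.finrank ℚ (LinearMap.range A) = Module.finrank ℚ C := by
    have h1 := LinearMap.finrank_range_add_finrank_ker A
    have h2 := Submodule.finrank_add_eq_of_isCompl hC
    omega
  have hfr2 : Module.finrank ℚ (C × ℚ) = Module.finrank ℚ C + 1 := by
    rw [Module.finrank_prod, Module.finrank_self]
  have h8 : Module.finrank ℚ (LinearMap.range (((n : ℚ) • A + B) ∘ₗ L)) = Module.finrank ℚ (C × ℚ) :=
    LinearMap.finrank_range_of_inj (LinearMap.ker_eq_bot.1 hinj)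
  have h9 : Module.finrank ℚ (LinearMap.range (((n : ℚ) • A + B) ∘ₗ L)) ≤
      Module.finrank ℚ (LinearMap.range ((n : ℚ) • A + B)) :=
    Submodule.finrank_mono (LinearMap.range_comp_le_range _ _)
  omega

end rank

variable {Ψ : Type*} [AddCommGroup Ψ] [Module ℚ Ψ]

/-- Commuting locally nilpotent operators: given a nonzero vector and finitely many operators,
there is an operator of the commutant which does not kill the vector, but whose value is killed by
all the given operators. -/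
lemma exists_killer (𝒯 : Set (Module.End ℚ Ψ)) (hcomm : ∀ s ∈ 𝒯, ∀ t ∈ 𝒯, Commute s t)
    (hnil : ∀ t ∈ 𝒯, ∀ x, ∃ n : ℕ, (t ^ n) x = 0) (L : List (Module.End ℚ Ψ))
    (hL : ∀ t ∈ L, t ∈ 𝒯) (x : Ψ) (hx : x ≠ 0) :
    ∃ P : Module.End ℚ Ψ, (∀ t ∈ 𝒯, Commute P t) ∧ P x ≠ 0 ∧ ∀ t ∈ L, t (P x) = 0 := by
  classical
  induction L with
  | nil => exact ⟨1, fun t _ => Commute.one_left t, by simpa using hx, by simp⟩
  | cons s L ih =>
    obtain ⟨P, hP, hPx, hPL⟩ := ih fun t ht => hL t (List.mem_cons_of_mem _ ht)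
    have hs : s ∈ 𝒯 := hL s List.mem_cons_self
    have hex := hnil s hs (P x)
    set n := Nat.find hex with hn
    have hnspec : (s ^ n) (P x) = 0 := Nat.find_spec hex
    have hn0 : n ≠ 0 := by
      intro h0
      rw [h0, pow_zero, Module.End.one_apply] at hnspec
      exact hPx hnspec
    have hmin : (s ^ (n - 1)) (P x) ≠ 0 := Nat.find_min hex (by omega)
    refine ⟨s ^ (n - 1) * P, fun t ht => ((hcomm s hs t ht).pow_left _).mul_left (hP t ht), hmin, ?_⟩
    intro t ht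
    rw [List.mem_cons] at ht
    rcases ht with rfl | ht
    · rw [Module.End.mul_apply, ← Module.End.mul_apply, ← pow_succ', show n - 1 + 1 = n by omega]
      exact hnspec
    · have hc : Commute t (s ^ (n - 1)) := (hcomm t (hL t (List.mem_cons_of_mem _ ht)) s hs).pow_right _
      have h1 : t ((s ^ (n - 1)) (P x)) = (s ^ (n - 1)) (t (P x)) := LinearMap.congr_fun hc.eq (P x)
      rw [Module.End.mul_apply, h1, hPL t ht, map_zero]

/-- Let `𝒯` be an additively closed set of commuting locally nilpotent operators without common kernel.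
For every finite dimensional space `Q` there is `t ∈ 𝒯` with no nonzero `λ ∈ Q`, `t λ ∈ Q`. -/
theorem exists_inj (𝒯 : Set (Module.End ℚ Ψ)) (hne : 𝒯.Nonempty) (hadd : ∀ s ∈ 𝒯, ∀ t ∈ 𝒯, s + t ∈ 𝒯)
    (hcomm : ∀ s ∈ 𝒯, ∀ t ∈ 𝒯, Commute s t)
    (hnil : ∀ t ∈ 𝒯, ∀ x, ∃ n : ℕ, (t ^ n) x = 0) (hker : ∀ x, (∀ t ∈ 𝒯, t x = 0) → x = 0)
    (Q : Submodule ℚ Ψ) [FiniteDimensional ℚ Q] :
    ∃ t ∈ 𝒯, ∀ l ∈ Q, t l ∈ Q → l = 0 := by
  classical
  let F : Module.End ℚ Ψ → (Q →ₗ[ℚ] (Ψ ⧸ Q)) := fun t => Q.mkQ ∘ₗ t ∘ₗ Q.subtype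
  let r : Module.End ℚ Ψ → ℕ := fun t => Module.finrank ℚ (LinearMap.range (F t))
  have hbd : ∀ t, r t ≤ Module.finrank ℚ Q := fun t => LinearMap.finrank_range_le _
  obtain ⟨t₀, ht₀, hmax⟩ : ∃ t₀ ∈ 𝒯, ∀ t ∈ 𝒯, r t ≤ r t₀ := by
    let S : Set ℕ := r '' 𝒯
    have hS : S.Nonempty := hne.image r
    have hSb : BddAbove S := ⟨Module.finrank ℚ Q, by rintro _ ⟨t, _, rfl⟩; exact hbd t⟩
    obtain ⟨t₀, ht₀, h0⟩ := Nat.sSup_mem hS hSb
    exact ⟨t₀, ht₀, fun t ht => h0 ▸ le_csSup hSb ⟨t, ht, rfl⟩⟩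
  refine ⟨t₀, ht₀, ?_⟩
  intro e he hte
  by_contra hene
  have hnsmul : ∀ (n : ℕ), ∀ t ∈ 𝒯, n • t₀ + t ∈ 𝒯 := by
    intro n
    induction n with
    | zero => intro t ht; simpa using ht
    | succ n ih =>
      intro t ht
      have h1 := ih (t₀ + t) (hadd _ ht₀ _ ht)
      rwa [← add_assoc, ← succ_nsmul] at h1
  -- `t e ∈ t₀ Q + Q`
  have hle : ∀ t ∈ 𝒯, t e ∈ Q.map t₀ ⊔ Q := by
    intro t ht
    have h0 : F t₀ ⟨e, he⟩ = 0 := by
      show Q.mkQ (t₀ e) = 0
      rw [Submodule.mkQ_apply, Submodule.Quotient.mk_eq_zero]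
      exact hte
    have h1 : F t ⟨e, he⟩ ∈ LinearMap.range (F t₀) := by
      by_contra hnot
      obtain ⟨n, hn⟩ := exists_rank_gt (F t₀) (F t) ⟨e, he⟩ h0 hnot
      have h2 : (n : ℚ) • F t₀ + F t = F (n • t₀ + t) := by
        ext x
        show (n : ℚ) • Q.mkQ (t₀ x) + Q.mkQ (t x) = Q.mkQ ((n • t₀ + t) x)
        rw [LinearMap.add_apply, LinearMap.smul_apply, map_add, ← map_smul, Nat.cast_smul_eq_nsmul]
      rw [h2] at hn
      exact absurd (hmax _ (hnsmul n t ht)) (not_le.2 hn)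
    obtain ⟨⟨y, hy⟩, hy2⟩ := h1
    have h3 : Q.mkQ (t₀ y) = Q.mkQ (t e) := hy2
    rw [Submodule.mkQ_apply, Submodule.mkQ_apply, Submodule.Quotient.eq] at h3
    have h4 : t e = t₀ y - (t₀ y - t e) := by abel
    rw [h4]
    exact Submodule.sub_mem _ (Submodule.mem_sup_left ⟨y, hy, rfl⟩) (Submodule.mem_sup_right h3)
  -- the span of `𝒯 e` is finite dimensional
  let W : Submodule ℚ Ψ := Submodule.span ℚ ((fun t : Module.End ℚ Ψ => t e) '' 𝒯)
  have hW : W ≤ Q.map t₀ ⊔ Q := by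
    rw [Submodule.span_le]
    rintro _ ⟨t, ht, rfl⟩
    exact hle t ht
  have hWfd : FiniteDimensional ℚ W := Submodule.finiteDimensional_of_le hW
  obtain ⟨T, hTsub, hTfin, hTspan⟩ : ∃ T ⊆ 𝒯, T.Finite ∧
      W = Submodule.span ℚ ((fun t : Module.End ℚ Ψ => t e) '' T) := by
    have hfg : W.FG := (Submodule.fg_iff_finiteDimensional W).2 hWfd
    obtain ⟨T', hT', hT'2⟩ := (Submodule.fg_span_iff_fg_span_finset_subset _).1 hfg
    obtain ⟨T, hT, hTi⟩ := Finset.subset_set_image_iff.1 hT'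
    refine ⟨T, hT, T.finite_toSet, ?_⟩
    rw [← Finset.coe_image, hTi]
    exact hT'2
  obtain ⟨P, hP, hPe, hPL⟩ := exists_killer 𝒯 hcomm hnil hTfin.toFinset.toList
    (fun t ht => hTsub (by simpa using ht)) e hene
  apply hPe
  apply hker
  intro t ht
  have h1 : t (P e) = P (t e) := (LinearMap.congr_fun (hP t ht).eq e).symm
  rw [h1]
  have h2 : t e ∈ W := Submodule.subset_span ⟨t, ht, rfl⟩
  have h3 : W ≤ LinearMap.ker P := by
    rw [hTspan, Submodule.span_le]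
    rintro _ ⟨s, hs, rfl⟩
    show P (s e) = 0
    have h4 : s (P e) = P (s e) := (LinearMap.congr_fun (hP s (hTsub hs)).eq e).symm
    rw [← h4]
    exact hPL s (by simpa using hs)
  exact h3 h2

end Pool.Agent.Helper794NC
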