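import Pool.Agent.Helper794_NC.Log

set_option autoImplicit false

namespace Pool.Agent.Helper794NC

open Polynomial

lemma exists_binom_expansion (m j : ℕ) (hj : 1 ≤ j) (hjm : j ≤ m) :
    ∃ a : ℤ, (a : ℚ) = (m.factorial : ℚ) * (bin j).coeff 1 ∧
      ∀ K : ℕ, ∃ b : ℤ, ((m.factorial * K).choose j : ℤ) = K * a + K ^ 2 * b := by
  obtain ⟨d, hd⟩ := Nat.factorial_dvd_factorial hjm
  set p : ℤ[X] := descPochhammer ℤ j with hp
  have hp0 : p.coeff 0 = 0 := by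
    rw [coeff_zero_eq_eval_zero, hp, descPochhammer_ne_zero_eval_zero]
    omega
  have hpX : p = X * (C (p.coeff 1) + X * p.divX.divX) := by
    have h1 := divX_mul_X_add p
    have h2 := divX_mul_X_add p.divX
    rw [hp0, C_0, add_zero] at h1
    rw [coeff_divX, zero_add] at h2
    conv_lhs => rw [← h1, ← h2]
    ring
  have hj0 : (j.factorial : ℤ) ≠ 0 := by exact_mod_cast j.factorial_ne_zero
  refine ⟨d * p.coeff 1, ?_, fun K => ⟨d * m.factorial * (p.divX.divX).eval ((m.factorial * K : ℕ) : ℤ), ?_⟩⟩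
  · unfold bin
    rw [coeff_C_mul, hd, ← descPochhammer_map (algebraMap ℤ ℚ), coeff_map, ← hp]
    have hj0' : (j.factorial : ℚ) ≠ 0 := by exact_mod_cast j.factorial_ne_zero
    push_cast
    field_simp
    simp
  · have h3 : p.eval ((m.factorial * K : ℕ) : ℤ) = (j.factorial : ℤ) * ((m.factorial * K).choose j : ℤ) := by
      rw [hp, descPochhammer_eval_eq_descFactorial, Nat.descFactorial_eq_factorial_mul_choose]
      push_cast; ring
    have h4 : p.eval ((m.factorial * K : ℕ) : ℤ) =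
        ((m.factorial * K : ℕ) : ℤ) * (p.coeff 1 + ((m.factorial * K : ℕ) : ℤ) *
          (p.divX.divX).eval ((m.factorial * K : ℕ) : ℤ)) := by
      conv_lhs => rw [hpX]
      rw [eval_mul, eval_X, eval_add, eval_C, eval_mul, eval_X]
    apply mul_left_cancel₀ hj0
    rw [← h3, h4]
    have hd' : (m.factorial : ℤ) = j.factorial * d := by exact_mod_cast hd
    set r := (p.divX.divX).eval ((m.factorial * K : ℕ) : ℤ)
    rw [Nat.cast_mul]
    conv_lhs => rw [mul_assoc, hd']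
    rw [hd']
    ring

lemma exists_binom_expansion' (m j : ℕ) (hjm : j ≤ m) :
    ∃ a : ℤ, (a : ℚ) = (m.factorial : ℚ) * (bin j).coeff 1 ∧
      ∀ K : ℕ, ∃ b : ℤ, ((m.factorial * K).choose j : ℤ) = (if j = 0 then 1 else 0) + K * a + K ^ 2 * b := by
  rcases Nat.eq_zero_or_pos j with rfl | hj
  · refine ⟨0, ?_, fun K => ⟨0, ?_⟩⟩
    · rw [bin_zero_coeff_one, mul_zero, Int.cast_zero]
    · simp
  · obtain ⟨a, ha, hb⟩ := exists_binom_expansion m j hj hjm
    refine ⟨a, ha, fun K => ?_⟩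
    obtain ⟨b, hb⟩ := hb K
    exact ⟨b, by rw [hb, if_neg (by omega), zero_add]⟩

variable {Φ : Type*} [AddCommGroup Φ] [Module ℚ Φ]

lemma pow_sub_one_mem (T : Module.End ℚ Φ) (N : Submodule ℤ Φ) (hTN : ∀ x ∈ N, T x ∈ N) (j : ℕ) {x : Φ}
    (hx : x ∈ N) : ((T - 1) ^ j) x ∈ N := by
  induction j with
  | zero => simpa using hx
  | succ j ih =>
    rw [pow_succ', Module.End.mul_apply]
    exact N.sub_mem (hTN _ ih) ih

lemma pow_expand {T : Module.End ℚ Φ} (hT : LU T) (N : Submodule ℤ Φ) (hTN : ∀ x ∈ N, T x ∈ N) (m : ℕ)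
    (hm : ∀ x ∈ N, ((T - 1) ^ m) x = 0) :
    (∀ x ∈ N, ((m.factorial : ℚ) • lg T) x ∈ N) ∧
    ∀ K : ℕ, ∀ x ∈ N, ∃ n ∈ N, (T ^ (m.factorial * K)) x =
      x + (K : ℤ) • ((m.factorial : ℚ) • lg T) x + ((K : ℤ) ^ 2) • n := by
  have hab : ∀ j : ℕ, ∃ a : ℤ, j ≤ m → (a : ℚ) = (m.factorial : ℚ) * (bin j).coeff 1 ∧
      ∀ K : ℕ, ∃ b : ℤ, ((m.factorial * K).choose j : ℤ) = (if j = 0 then 1 else 0) + K * a + K ^ 2 * b := by
    intro j
    by_cases h : j ≤ m
    · obtain ⟨a, ha⟩ := exists_binom_expansion' m j h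
      exact ⟨a, fun _ => ha⟩
    · exact ⟨0, fun h' => absurd h' h⟩
  choose a ha using hab
  have hE : ∀ x ∈ N, ((m.factorial : ℚ) • lg T) x = ∑ j ∈ Finset.range m, a j • ((T - 1) ^ j) x := by
    intro x hx
    rw [LinearMap.smul_apply, lg_apply hT (hm x hx), lsum_apply, Finset.smul_sum]
    refine Finset.sum_congr rfl fun j hj => ?_
    rw [smul_smul, ← (ha j (Finset.mem_range.1 hj).le).1, Int.cast_smul_eq_zsmul]
  refine ⟨?_, ?_⟩
  · intro x hx
    rw [hE x hx]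
    exact N.sum_mem fun j _ => N.smul_mem _ (pow_sub_one_mem T N hTN j hx)
  · intro K x hx
    have hb : ∀ j : ℕ, ∃ b : ℤ, j ≤ m →
        ((m.factorial * K).choose j : ℤ) = (if j = 0 then 1 else 0) + K * a j + K ^ 2 * b := by
      intro j
      by_cases h : j ≤ m
      · obtain ⟨b, hb⟩ := (ha j h).2 K
        exact ⟨b, fun _ => hb⟩
      · exact ⟨0, fun h' => absurd h' h⟩
    choose b hb using hb
    refine ⟨∑ j ∈ Finset.range m, b j • ((T - 1) ^ j) x,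
      N.sum_mem fun j _ => N.smul_mem _ (pow_sub_one_mem T N hTN j hx), ?_⟩
    rcases Nat.eq_zero_or_pos m with rfl | hm0
    · have h0 : x = 0 := by simpa using hm x hx
      simp [h0]
    · rw [pow_apply_eq_sum T (hm x hx), hE x hx, Finset.smul_sum, Finset.smul_sum]
      have h1 : ∀ j ∈ Finset.range m, ((m.factorial * K).choose j : ℚ) • ((T - 1) ^ j) x =
          (if j = 0 then x else 0) + ((K : ℤ) • a j • ((T - 1) ^ j) x + ((K : ℤ) ^ 2) • b j • ((T - 1) ^ j) x) := by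
        intro j hj
        have h2 := hb j (Finset.mem_range.1 hj).le
        have h3 : (((m.factorial * K).choose j : ℕ) : ℚ) = (((m.factorial * K).choose j : ℤ) : ℚ) := by
          push_cast; rfl
        rw [h3, Int.cast_smul_eq_zsmul, h2, add_smul, add_smul, mul_smul, mul_smul, add_assoc]
        congr 1
        split_ifs with h0
        · subst h0; simp
        · simp
      rw [Finset.sum_congr rfl h1, Finset.sum_add_distrib, Finset.sum_ite_eq' (Finset.range m) 0,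
        if_pos (Finset.mem_range.2 hm0), Finset.sum_add_distrib, add_assoc]

/-- finitely generated abelian groups have no nonzero divisible elements -/
lemma eq_zero_of_forall_smul {M : Type*} [AddCommGroup M] [Module.Finite ℤ M] (x : M)
    (h : ∀ K : ℕ, 0 < K → ∃ y : M, x = K • y) : x = 0 := by
  have key : ∀ p : ℕ, p.Prime → ∃ a : ℤ, ((p : ℤ) * a) • x = x := by
    intro p hp
    have h1 : x ∈ (⨅ i : ℕ, (Ideal.span {(p : ℤ)}) ^ i • ⊤ : Submodule ℤ M) := by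
      rw [Submodule.mem_iInf]
      intro i
      obtain ⟨y, hy⟩ := h (p ^ i) (pow_pos hp.pos i)
      rw [hy, ← Nat.cast_smul_eq_nsmul ℤ]
      refine Submodule.smul_mem_smul ?_ Submodule.mem_top
      rw [Nat.cast_pow]
      exact Ideal.pow_mem_pow (Ideal.mem_span_singleton_self _) i
    obtain ⟨⟨r, hr⟩, hrx⟩ := (Ideal.mem_iInf_smul_pow_eq_bot_iff _ x).1 h1
    obtain ⟨a, ha⟩ := Ideal.mem_span_singleton.1 hr
    refine ⟨a, ?_⟩
    rw [← ha]
    exact hrx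
  have hdvd : ∀ p : ℕ, p.Prime → ∃ a : ℤ, (addOrderOf x : ℤ) ∣ 1 - (p : ℤ) * a := by
    intro p hp
    obtain ⟨a, ha⟩ := key p hp
    refine ⟨a, ?_⟩
    rw [addOrderOf_dvd_iff_zsmul_eq_zero, sub_smul, one_smul, ha, sub_self]
  by_contra hx
  have h1 : addOrderOf x ≠ 1 := by rwa [Ne, AddMonoid.addOrderOf_eq_one_iff]
  obtain ⟨p, hp, hpd⟩ := Nat.exists_prime_and_dvd h1
  obtain ⟨a, ha⟩ := hdvd p hp
  have h2 : (p : ℤ) ∣ 1 - (p : ℤ) * a := (Int.natCast_dvd_natCast.2 hpd).trans ha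
  have h3 : (p : ℤ) ∣ 1 := by
    have := dvd_add h2 (dvd_mul_right (p : ℤ) a)
    rwa [sub_add_cancel] at this
  have h4 : p ∣ 1 := by exact_mod_cast h3
  exact hp.one_lt.ne' (Nat.dvd_one.1 h4)

omit [Module ℚ Φ] in
lemma mem_of_forall_smul (N R : Submodule ℤ Φ) (hN : N.FG) (y : Φ) (hy : y ∈ N)
    (h : ∀ K : ℕ, 0 < K → ∃ r ∈ R, ∃ n ∈ N, y = r + (K : ℤ) • n) : y ∈ R := by
  have : Module.Finite ℤ N := Module.Finite.iff_fg.2 hN
  let R' : Submodule ℤ N := R.comap N.subtype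
  have h1 : (R'.mkQ ⟨y, hy⟩) = 0 := by
    apply eq_zero_of_forall_smul
    intro K hK
    obtain ⟨r, hr, n, hn, hyn⟩ := h K hK
    refine ⟨R'.mkQ ⟨n, hn⟩, ?_⟩
    rw [← Nat.cast_smul_eq_nsmul ℤ, ← map_smul, ← sub_eq_zero, ← map_sub, Submodule.mkQ_apply,
      Submodule.Quotient.mk_eq_zero]
    show y - (K : ℤ) • n ∈ R
    rw [hyn, add_sub_cancel_right]
    exact hr
  rw [Submodule.mkQ_apply, Submodule.Quotient.mk_eq_zero] at h1
  exact h1

/-- The lattice step. -/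
theorem lattice_step {T : Module.End ℚ Φ} (hT : LU T) (N Λ : Submodule ℤ Φ) (hfg : N.FG)
    (hTN : ∀ x ∈ N, T x ∈ N) (hΛ : Λ ≤ N) (θ : Φ) (hθ : θ ∈ N)
    (H : ∀ M : ℕ, 0 < M → ∃ J : ℕ, (T ^ (J * M)) ((T ^ M) θ - θ) ∈
      Submodule.span ℤ {y | ∃ j : ℕ, ∃ l ∈ Λ, y = (T ^ (j * M)) l}) :
    ∃ l ∈ Λ, ∃ n : ℕ, 0 < n ∧ n • lg T (θ - l) ∈ Λ := by
  -- a uniform exponent
  obtain ⟨m, hm⟩ : ∃ m : ℕ, ∀ x ∈ N, ((T - 1) ^ m) x = 0 := by
    obtain ⟨S, hS⟩ := hfg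
    have : ∀ x : Φ, ∃ n : ℕ, ((T - 1) ^ n : Module.End ℚ Φ) x = 0 := hT
    choose f hf using this
    refine ⟨S.sup f, fun x hx => ?_⟩
    rw [← hS] at hx
    induction hx using Submodule.span_induction with
    | mem x hx => exact pow_apply_zero_of_le (hf x) (Finset.le_sup (f := f) hx)
    | zero => rw [map_zero]
    | add x y _ _ h1 h2 => rw [map_add, h1, h2, add_zero]
    | smul a x _ h1 => rw [map_zsmul, h1, smul_zero]
  obtain ⟨hEN, hexp⟩ := pow_expand hT N hTN m hm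
  set E : Module.End ℚ Φ := (m.factorial : ℚ) • lg T with hE
  set c := m.factorial with hc
  have hc0 : 0 < c := m.factorial_pos
  have hpowN : ∀ (k : ℕ), ∀ x ∈ N, (T ^ k) x ∈ N := by
    intro k
    induction k with
    | zero => intro x hx; simpa using hx
    | succ k ih =>
      intro x hx
      rw [pow_succ', Module.End.mul_apply]
      exact hTN _ (ih x hx)
  -- first: shape of elements of the span
  have hspan : ∀ K : ℕ, ∀ y ∈ Submodule.span ℤ {y | ∃ j : ℕ, ∃ l ∈ Λ, y = (T ^ (j * (c * K))) l},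
      ∃ l0 ∈ Λ, ∃ l1 ∈ Λ, ∃ n ∈ N, y = l0 + (K : ℤ) • E l1 + ((K : ℤ) ^ 2) • n := by
    intro K y hy
    induction hy using Submodule.span_induction with
    | mem y hy =>
      obtain ⟨j, l, hl, rfl⟩ := hy
      induction j with
      | zero => exact ⟨l, hl, 0, Λ.zero_mem, 0, N.zero_mem, by simp⟩
      | succ j ih =>
        obtain ⟨l0, hl0, l1, hl1, n, hn, hy⟩ := ih
        obtain ⟨n0, hn0, h0⟩ := hexp K l0 (hΛ hl0)
        obtain ⟨n1, hn1, h1⟩ := hexp K (E l1) (hEN _ (hΛ hl1))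
        have hn2 : (T ^ (c * K)) n ∈ N := hpowN _ n hn
        refine ⟨l0, hl0, l0 + l1, Λ.add_mem hl0 hl1,
          n0 + (E (E l1) + (K : ℤ) • n1) + (T ^ (c * K)) n,
          N.add_mem (N.add_mem hn0 (N.add_mem (hEN _ (hEN _ (hΛ hl1))) (N.smul_mem _ hn1))) hn2, ?_⟩
        rw [show (j + 1) * (c * K) = c * K + j * (c * K) by ring, pow_add, Module.End.mul_apply, hy,
          map_add, map_add, map_zsmul, map_zsmul, h0, h1, map_add]
        simp only [smul_add, smul_smul]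
        have e1 : (K : ℤ) * (K : ℤ) = (K : ℤ) ^ 2 := by ring
        have e2 : (K : ℤ) * (K : ℤ) ^ 2 = (K : ℤ) ^ 2 * K := by ring
        rw [e1, e2]
        abel
    | zero => exact ⟨0, Λ.zero_mem, 0, Λ.zero_mem, 0, N.zero_mem, by simp⟩
    | add x y _ _ h1 h2 =>
      obtain ⟨a0, ha0, a1, ha1, n, hn, hx⟩ := h1
      obtain ⟨b0, hb0, b1, hb1, n', hn', hy⟩ := h2
      refine ⟨a0 + b0, Λ.add_mem ha0 hb0, a1 + b1, Λ.add_mem ha1 hb1, n + n', N.add_mem hn hn', ?_⟩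
      rw [hx, hy, map_add, smul_add, smul_add]
      abel
    | smul a x _ h1 =>
      obtain ⟨a0, ha0, a1, ha1, n, hn, hx⟩ := h1
      refine ⟨a • a0, Λ.smul_mem _ ha0, a • a1, Λ.smul_mem _ ha1, a • n, N.smul_mem _ hn, ?_⟩
      rw [hx, map_zsmul, smul_add, smul_add, smul_comm a (K : ℤ), smul_comm a ((K : ℤ) ^ 2)]
  -- the shape of `T^{JM} (T^M θ - θ)`
  have hleft : ∀ K : ℕ, ∀ J : ℕ, ∃ n ∈ N, (T ^ (J * (c * K))) ((T ^ (c * K)) θ - θ) =
      (K : ℤ) • E θ + ((K : ℤ) ^ 2) • n := by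
    intro K J
    induction J with
    | zero =>
      obtain ⟨n0, hn0, h0⟩ := hexp K θ hθ
      refine ⟨n0, hn0, ?_⟩
      rw [zero_mul, pow_zero, Module.End.one_apply, h0]
      abel
    | succ J ih =>
      obtain ⟨n, hn, hJ⟩ := ih
      obtain ⟨n1, hn1, h1⟩ := hexp K (E θ) (hEN _ hθ)
      refine ⟨E (E θ) + (K : ℤ) • n1 + (T ^ (c * K)) n,
        N.add_mem (N.add_mem (hEN _ (hEN _ hθ)) (N.smul_mem _ hn1)) (hpowN _ n hn), ?_⟩
      rw [show (J + 1) * (c * K) = c * K + J * (c * K) by ring, pow_add, Module.End.mul_apply, hJ,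
        map_add, map_zsmul, map_zsmul, h1]
      simp only [smul_add, smul_smul]
      have e1 : (K : ℤ) * (K : ℤ) = (K : ℤ) ^ 2 := by ring
      have e2 : (K : ℤ) * (K : ℤ) ^ 2 = (K : ℤ) ^ 2 * K := by ring
      rw [e1, e2]
      abel
  -- the subgroup `R = E Λ + N ∩ Λ_ℚ`
  let NL : Submodule ℤ Φ :=
    { carrier := {z | z ∈ N ∧ ∃ k : ℕ, 0 < k ∧ k • z ∈ Λ}
      zero_mem' := ⟨N.zero_mem, 1, one_pos, by simp⟩
      add_mem' := by
        rintro x y ⟨hx, k, hk, hkx⟩ ⟨hy, k', hk', hky⟩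
        refine ⟨N.add_mem hx hy, k' * k, Nat.mul_pos hk' hk, ?_⟩
        rw [smul_add]
        refine Λ.add_mem ?_ ?_
        · rw [mul_smul]; exact Λ.smul_of_tower_mem k' hkx
        · rw [mul_comm, mul_smul]; exact Λ.smul_of_tower_mem k hky
      smul_mem' := by
        rintro a x ⟨hx, k, hk, hkx⟩
        refine ⟨N.smul_mem _ hx, k, hk, ?_⟩
        rw [smul_comm]
        exact Λ.smul_mem _ hkx }
  let R : Submodule ℤ Φ := Λ.map (E.toAddMonoidHom.toIntLinearMap) ⊔ NL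
  have hRN : R ≤ N := by
    refine sup_le ?_ fun z hz => hz.1
    rintro _ ⟨l, hl, rfl⟩
    exact hEN l (hΛ hl)
  have hmem : E θ ∈ R := by
    apply mem_of_forall_smul N R hfg (E θ) (hEN _ hθ)
    intro K hK
    obtain ⟨J, hJ⟩ := H (c * K) (Nat.mul_pos hc0 hK)
    obtain ⟨l0, hl0, l1, hl1, n, hn, h1⟩ := hspan K _ hJ
    obtain ⟨n', hn', h2⟩ := hleft K J
    rw [h2] at h1
    -- `l0 = K z`
    set z := E θ - E l1 + (K : ℤ) • (n' - n) with hz
    have hzN : z ∈ N := N.add_mem (N.sub_mem (hEN _ hθ) (hEN _ (hΛ hl1))) (N.smul_mem _ (N.sub_mem hn' hn))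
    have hl0z : (K : ℤ) • z = l0 := by
      rw [hz, smul_add, smul_sub, smul_smul, smul_sub, show (K : ℤ) * K = (K : ℤ) ^ 2 by ring]
      have h3 : l0 = (K : ℤ) • E θ + ((K : ℤ) ^ 2) • n' - (K : ℤ) • E l1 - ((K : ℤ) ^ 2) • n := by
        rw [h1]; abel
      rw [h3]; abel
    refine ⟨E l1 + z, ?_, n - n', N.sub_mem hn hn', ?_⟩
    · refine R.add_mem (Submodule.mem_sup_left ⟨l1, hl1, rfl⟩) (Submodule.mem_sup_right ⟨hzN, K, hK, ?_⟩)
      rw [← Nat.cast_smul_eq_nsmul ℤ, hl0z]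
      exact hl0
    · rw [hz, smul_sub, smul_sub]; abel
  obtain ⟨y, ⟨l, hl, rfl⟩, z, ⟨_, k, hk, hkz⟩, hyz⟩ := Submodule.mem_sup.1 hmem
  refine ⟨l, hl, k * c, Nat.mul_pos hk hc0, ?_⟩
  have h5 : E (θ - l) = z := by
    rw [map_sub, ← hyz]
    show E l + z - E l = z
    abel
  have h6 : (k * c) • lg T (θ - l) = k • E (θ - l) := by
    rw [hE, mul_smul, LinearMap.smul_apply, Nat.cast_smul_eq_nsmul]
  rw [h6, h5]
  exact hkz

end Pool.Agent.Helper794NC
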