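import Mathlib

set_option autoImplicit false

namespace Pool.Agent.Helper794NC

open Polynomial

/-- binomial polynomials -/
noncomputable def bin (j : ℕ) : ℚ[X] := C ((j.factorial : ℚ)⁻¹) * descPochhammer ℚ j

lemma bin_eval (j t : ℕ) : (bin j).eval (t : ℚ) = (t.choose j : ℚ) := by
  unfold bin
  rw [eval_mul, eval_C, descPochhammer_eval_eq_descFactorial, Nat.descFactorial_eq_factorial_mul_choose]
  push_cast
  rw [← mul_assoc, inv_mul_cancel₀ (by exact_mod_cast j.factorial_ne_zero), one_mul]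

lemma bin_coeff_zero (j : ℕ) : (bin j).coeff 0 = if j = 0 then 1 else 0 := by
  rw [coeff_zero_eq_eval_zero]
  have h := bin_eval j 0
  rw [Nat.cast_zero] at h
  rw [h]
  cases j with
  | zero => simp
  | succ j => simp

lemma bin_zero_coeff_one : (bin 0).coeff 1 = 0 := by
  unfold bin
  simp [coeff_one]

lemma bin_one_coeff_one : (bin 1).coeff 1 = 1 := by
  unfold bin
  simp [descPochhammer_one]

variable {Ψ : Type*} [AddCommGroup Ψ] [Module ℚ Ψ]

/-- locally unipotent operators -/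
def LU (T : Module.End ℚ Ψ) : Prop := ∀ x : Ψ, ∃ n : ℕ, ((T - 1) ^ n : Module.End ℚ Ψ) x = 0

lemma pow_apply_zero_of_le {U : Module.End ℚ Ψ} {x : Ψ} {n m : ℕ} (h : (U ^ n) x = 0)
    (hnm : n ≤ m) : (U ^ m) x = 0 := by
  obtain ⟨k, rfl⟩ := Nat.exists_eq_add_of_le hnm
  rw [add_comm, pow_add, Module.End.mul_apply, h, map_zero]

/-- truncated logarithm series -/
noncomputable def lsum (T : Module.End ℚ Ψ) (N : ℕ) : Module.End ℚ Ψ :=
  ∑ j ∈ Finset.range N, (bin j).coeff 1 • (T - 1) ^ j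

lemma lsum_apply (T : Module.End ℚ Ψ) (N : ℕ) (x : Ψ) :
    lsum T N x = ∑ j ∈ Finset.range N, (bin j).coeff 1 • ((T - 1) ^ j) x := by
  simp [lsum, LinearMap.sum_apply]

lemma lsum_eq_of_le (T : Module.End ℚ Ψ) {n N : ℕ} {x : Ψ} (h : ((T - 1) ^ n) x = 0)
    (hN : n ≤ N) : lsum T N x = lsum T n x := by
  rw [lsum_apply, lsum_apply]
  symm
  apply Finset.sum_subset (Finset.range_mono hN)
  intro j _ hj
  rw [Finset.mem_range, not_lt] at hj
  rw [pow_apply_zero_of_le h hj, smul_zero]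

lemma lsum_eq (T : Module.End ℚ Ψ) {n N : ℕ} {x : Ψ} (h : ((T - 1) ^ n) x = 0)
    (h' : ((T - 1) ^ N) x = 0) : lsum T N x = lsum T n x := by
  rcases le_total n N with hh | hh
  · exact lsum_eq_of_le T h hh
  · exact (lsum_eq_of_le T h' hh).symm

open Classical in
/-- the logarithm of a locally unipotent operator -/
noncomputable def lg (T : Module.End ℚ Ψ) : Module.End ℚ Ψ :=
  if h : LU T then
    { toFun := fun x => lsum T (Nat.find (h x)) x
      map_add' := by
        intro x y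
        set a := Nat.find (h x) with ha
        set b := Nat.find (h y) with hb
        have hx : ((T - 1) ^ (max a b)) x = 0 := pow_apply_zero_of_le (Nat.find_spec (h x)) (le_max_left _ _)
        have hy : ((T - 1) ^ (max a b)) y = 0 := pow_apply_zero_of_le (Nat.find_spec (h y)) (le_max_right _ _)
        have hxy : ((T - 1) ^ (max a b)) (x + y) = 0 := by rw [map_add, hx, hy, add_zero]
        rw [lsum_eq T hxy (Nat.find_spec (h (x + y))), lsum_eq T hx (Nat.find_spec (h x)),
          lsum_eq T hy (Nat.find_spec (h y)), map_add]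
      map_smul' := by
        intro c x
        have hx := Nat.find_spec (h x)
        have hcx : ((T - 1) ^ (Nat.find (h x))) (c • x) = 0 := by rw [map_smul, hx, smul_zero]
        rw [lsum_eq T hcx (Nat.find_spec (h (c • x))), map_smul]
        rfl }
  else 0

lemma lg_apply {T : Module.End ℚ Ψ} (hT : LU T) {x : Ψ} {n : ℕ} (h : ((T - 1) ^ n) x = 0) :
    lg T x = lsum T n x := by
  classical
  unfold lg
  rw [dif_pos hT]
  exact lsum_eq T h (Nat.find_spec (hT x))

lemma lg_comm_apply {Ψ' : Type*} [AddCommGroup Ψ'] [Module ℚ Ψ'] {T : Module.End ℚ Ψ}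
    {T' : Module.End ℚ Ψ'} (hT : LU T) (hT' : LU T') (P : Ψ →ₗ[ℚ] Ψ')
    (hP : ∀ x, P (T x) = T' (P x)) (x : Ψ) : P (lg T x) = lg T' (P x) := by
  have hpow : ∀ (j : ℕ) (y : Ψ), P (((T - 1) ^ j) y) = ((T' - 1) ^ j) (P y) := by
    intro j
    induction j with
    | zero => intro y; simp
    | succ j ih =>
      intro y
      rw [pow_succ, pow_succ, Module.End.mul_apply, Module.End.mul_apply, ih]
      simp [hP]
  obtain ⟨n, hn⟩ := hT x
  have hn' : ((T' - 1) ^ n) (P x) = 0 := by rw [← hpow, hn, map_zero]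
  rw [lg_apply hT hn, lg_apply hT' hn', lsum_apply, lsum_apply, map_sum]
  refine Finset.sum_congr rfl fun j _ => ?_
  rw [map_smul, hpow]

lemma lg_commute {T : Module.End ℚ Ψ} (hT : LU T) {P : Module.End ℚ Ψ} (hP : Commute P T) :
    Commute P (lg T) := by
  ext x
  exact lg_comm_apply hT hT P (fun x => LinearMap.congr_fun hP x) x

lemma lg_mem {T : Module.End ℚ Ψ} (hT : LU T) (W : Submodule ℚ Ψ) (hW : ∀ x ∈ W, T x ∈ W) {x : Ψ}
    (hx : x ∈ W) : lg T x ∈ W := by
  have hpow : ∀ j : ℕ, ((T - 1) ^ j) x ∈ W := by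
    intro j
    induction j with
    | zero => simpa using hx
    | succ j ih =>
      rw [pow_succ', Module.End.mul_apply]
      exact W.sub_mem (hW _ ih) ih
  obtain ⟨n, hn⟩ := hT x
  rw [lg_apply hT hn, lsum_apply]
  exact W.sum_mem fun j _ => W.smul_mem _ (hpow j)

/-- the polynomial `M ↦ ℓ (T ^ M x)` -/
noncomputable def pol (T : Module.End ℚ Ψ) (N : ℕ) (x : Ψ) (ℓ : Ψ →ₗ[ℚ] ℚ) : ℚ[X] :=
  ∑ j ∈ Finset.range N, C (ℓ (((T - 1) ^ j) x)) * bin j

lemma pow_apply_eq_sum (T : Module.End ℚ Ψ) {N : ℕ} {x : Ψ} (h : ((T - 1) ^ N) x = 0) (M : ℕ) :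
    (T ^ M) x = ∑ j ∈ Finset.range N, (M.choose j : ℚ) • ((T - 1) ^ j) x := by
  have h1 : T ^ M = ∑ j ∈ Finset.range (M + 1), (M.choose j : ℚ) • (T - 1) ^ j := by
    have h2 : T = (T - 1) + 1 := by simp
    conv_lhs => rw [h2, (Commute.one_right (T - 1)).add_pow M]
    refine Finset.sum_congr rfl fun j _ => ?_
    rw [one_pow, mul_one, Nat.cast_smul_eq_nsmul, nsmul_eq_mul]
    exact ((Nat.cast_commute _ _).eq).symm
  rw [h1, LinearMap.sum_apply]
  simp only [LinearMap.smul_apply]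
  have hA : (∑ j ∈ Finset.range (M + 1), (M.choose j : ℚ) • ((T - 1) ^ j) x) =
      ∑ j ∈ Finset.range (M + 1 + N), (M.choose j : ℚ) • ((T - 1) ^ j) x := by
    apply Finset.sum_subset (Finset.range_mono (by omega))
    intro j _ hj
    rw [Finset.mem_range, not_lt] at hj
    rw [Nat.choose_eq_zero_of_lt (by omega), Nat.cast_zero, zero_smul]
  have hB : (∑ j ∈ Finset.range N, (M.choose j : ℚ) • ((T - 1) ^ j) x) =
      ∑ j ∈ Finset.range (M + 1 + N), (M.choose j : ℚ) • ((T - 1) ^ j) x := by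
    apply Finset.sum_subset (Finset.range_mono (by omega))
    intro j _ hj
    rw [Finset.mem_range, not_lt] at hj
    rw [pow_apply_zero_of_le h hj, smul_zero]
  rw [hA, hB]

lemma pol_eval (T : Module.End ℚ Ψ) {N : ℕ} {x : Ψ} (h : ((T - 1) ^ N) x = 0) (ℓ : Ψ →ₗ[ℚ] ℚ)
    (M : ℕ) : (pol T N x ℓ).eval (M : ℚ) = ℓ ((T ^ M) x) := by
  rw [pow_apply_eq_sum T h M, map_sum, pol, eval_finsetSum]
  refine Finset.sum_congr rfl fun j _ => ?_
  rw [eval_mul, eval_C, bin_eval, map_smul, smul_eq_mul, mul_comm]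

lemma pol_coeff_one (T : Module.End ℚ Ψ) (N : ℕ) (x : Ψ) (ℓ : Ψ →ₗ[ℚ] ℚ) :
    (pol T N x ℓ).coeff 1 = ℓ (lsum T N x) := by
  rw [lsum_apply, map_sum, pol, finsetSum_coeff]
  refine Finset.sum_congr rfl fun j _ => ?_
  rw [coeff_C_mul, map_smul, smul_eq_mul, mul_comm]

lemma pol_coeff_zero (T : Module.End ℚ Ψ) {N : ℕ} {x : Ψ} (h : ((T - 1) ^ N) x = 0)
    (ℓ : Ψ →ₗ[ℚ] ℚ) : (pol T N x ℓ).coeff 0 = ℓ x := by
  have := pol_eval T h ℓ 0
  rw [pow_zero, Module.End.one_apply, Nat.cast_zero] at this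
  rw [coeff_zero_eq_eval_zero, this]

lemma LU.uniform {T : Module.End ℚ Ψ} (hT : LU T) (S : Module.End ℚ Ψ) (x : Ψ) (m : ℕ) :
    ∃ n : ℕ, ∀ j, j ≤ m → ((T - 1) ^ n : Module.End ℚ Ψ) (((S - 1) ^ j : Module.End ℚ Ψ) x) = 0 := by
  have : ∀ j : ℕ, ∃ n : ℕ, ((T - 1) ^ n : Module.End ℚ Ψ) (((S - 1) ^ j : Module.End ℚ Ψ) x) = 0 :=
    fun j => hT _
  choose f hf using this
  refine ⟨(Finset.range (m + 1)).sup f, fun j hj => ?_⟩
  exact pow_apply_zero_of_le (hf j) (Finset.le_sup (f := f) (Finset.mem_range.2 (by omega)))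

lemma LU.mul {T S : Module.End ℚ Ψ} (hT : LU T) (hS : LU S) (hc : Commute T S) : LU (T * S) := by
  intro x
  have key : T * S - 1 = (T - 1) * S + (S - 1) := by
    rw [sub_mul, one_mul]; abel
  obtain ⟨m, hm⟩ := hS x
  -- we show: for every k, every x killed by (S-1)^m is killed by a power
  have hTS : Commute (T - 1) S := by
    exact (hc.sub_left (Commute.one_left S))
  have hTS' : Commute ((T - 1) * S) (S - 1) := by
    have h1 : Commute (T - 1) (S - 1) := hTS.sub_right (Commute.one_right _)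
    have h2 : Commute S (S - 1) := (Commute.refl S).sub_right (Commute.one_right _)
    exact h1.mul_left h2
  obtain ⟨n, hn⟩ := hT.uniform S x m
  refine ⟨n + m, ?_⟩
  rw [key, hTS'.add_pow, LinearMap.sum_apply]
  apply Finset.sum_eq_zero
  intro i hi
  rw [Finset.mem_range] at hi
  have hcast : Commute ((((T - 1) * S) ^ i * (S - 1) ^ (n + m - i))) (((n + m).choose i : ℕ) : Module.End ℚ Ψ) :=
    Nat.commute_cast _ _
  rw [hcast.eq, Module.End.mul_apply]
  have hz : (((T - 1) * S) ^ i * (S - 1) ^ (n + m - i)) x = 0 := by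
    rcases le_or_gt n i with h | h
    · rcases le_or_gt (n + m - i) m with h' | h'
      · rw [hTS.mul_pow, ((hTS.pow_pow i i).eq), mul_assoc, Module.End.mul_apply, Module.End.mul_apply,
          pow_apply_zero_of_le (hn _ h') h, map_zero]
      · omega
    · rw [Module.End.mul_apply, pow_apply_zero_of_le hm (by omega), map_zero]
  rw [hz, map_zero]

lemma lg_mul {T S : Module.End ℚ Ψ} (hT : LU T) (hS : LU S) (hc : Commute T S) :
    lg (T * S) = lg T + lg S := by
  ext x
  refine sub_eq_zero.1 ((Module.forall_dual_apply_eq_zero_iff ℚ _).1 fun ℓ => ?_)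
  rw [map_sub, sub_eq_zero]
  obtain ⟨N, hN⟩ := (hT.mul hS hc) x
  obtain ⟨m, hm⟩ := hS x
  obtain ⟨n, hn⟩ := hT.uniform S x m
  have hpoly : pol (T * S) N x ℓ =
      ∑ j ∈ Finset.range (m + 1), bin j * pol T n (((S - 1) ^ j) x) ℓ := by
    apply Polynomial.eq_of_infinite_eval_eq
    apply Set.Infinite.mono _ (Set.infinite_range_of_injective
      (f := fun t : ℕ => (t : ℚ)) Nat.cast_injective)
    rintro _ ⟨M, rfl⟩
    show (pol (T * S) N x ℓ).eval (M : ℚ) = _
    rw [pol_eval _ hN, eval_finsetSum, hc.mul_pow, Module.End.mul_apply,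
      pow_apply_eq_sum S (pow_apply_zero_of_le hm (Nat.le_succ m)) M, map_sum, map_sum]
    refine Finset.sum_congr rfl fun j hj => ?_
    rw [eval_mul, bin_eval, pol_eval T (hn j (by rw [Finset.mem_range] at hj; omega)), map_smul,
      map_smul, smul_eq_mul]
  have h1 : (pol (T * S) N x ℓ).coeff 1 = ℓ (lg (T * S) x) := by
    rw [pol_coeff_one, lg_apply (hT.mul hS hc) hN]
  rw [← h1, hpoly, finsetSum_coeff]
  have hcoe : ∀ j ∈ Finset.range (m + 1), (bin j * pol T n (((S - 1) ^ j) x) ℓ).coeff 1 =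
      (if j = 0 then ℓ (lg T x) else 0) + ℓ ((bin j).coeff 1 • ((S - 1) ^ j) x) := by
    intro j hj
    rw [mul_coeff_one, bin_coeff_zero, pol_coeff_zero T (hn j (by rw [Finset.mem_range] at hj; omega)),
      pol_coeff_one, map_smul, smul_eq_mul]
    split_ifs with h0
    · subst h0
      have h2 : ((T - 1) ^ n) x = 0 := by simpa using hn 0 (Nat.zero_le _)
      rw [one_mul, lg_apply hT h2]
      simp
    · rw [zero_mul]
  rw [Finset.sum_congr rfl hcoe, Finset.sum_add_distrib, Finset.sum_ite_eq' (Finset.range (m + 1)) 0,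
    if_pos (by simp), LinearMap.add_apply, map_add, ← map_sum,
    lg_apply hS (pow_apply_zero_of_le hm (Nat.le_succ m)), lsum_apply]

lemma lg_eq_zero {T : Module.End ℚ Ψ} (hT : LU T) {x : Ψ} (h : lg T x = 0) : T x = x := by
  classical
  by_contra hne
  have h1 : (T - 1) x ≠ 0 := by
    intro h2; apply hne; rw [LinearMap.sub_apply, Module.End.one_apply, sub_eq_zero] at h2; exact h2
  -- let `k + 2` be minimal with `(T-1)^(k+2) x = 0`
  have hex := hT x
  set n := Nat.find hex with hn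
  have hnspec : ((T - 1) ^ n) x = 0 := Nat.find_spec hex
  have hn2 : 2 ≤ n := by
    by_contra hlt
    push Not at hlt
    apply h1
    have := pow_apply_zero_of_le hnspec (show n ≤ 1 by omega)
    rwa [pow_one] at this
  have hmin : ((T - 1) ^ (n - 1)) x ≠ 0 := Nat.find_min hex (by omega)
  apply hmin
  have h3 : ((T - 1) ^ (n - 2)) (lg T x) = 0 := by rw [h, map_zero]
  rw [lg_apply hT hnspec, lsum_apply, map_sum] at h3
  rw [Finset.sum_eq_single 1] at h3
  · rw [bin_one_coeff_one, one_smul, ← Module.End.mul_apply, ← pow_add] at h3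
    rwa [show n - 2 + 1 = n - 1 by omega] at h3
  · intro j _ hj
    rcases Nat.eq_zero_or_pos j with rfl | hpos
    · rw [bin_zero_coeff_one, zero_smul, map_zero]
    · rw [map_smul, ← Module.End.mul_apply, ← pow_add, pow_apply_zero_of_le hnspec (by omega), smul_zero]
  · intro hh
    exact absurd (Finset.mem_range.2 (by omega)) hh

lemma lg_nil {T : Module.End ℚ Ψ} (hT : LU T) (x : Ψ) : ∃ n, ((lg T) ^ n) x = 0 := by
  obtain ⟨n, hn⟩ := hT x
  refine ⟨n, ?_⟩
  induction n generalizing x with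
  | zero => simpa using hn
  | succ n ih =>
    rw [pow_succ, Module.End.mul_apply]
    apply ih
    have hc : Commute ((T - 1) ^ n) (lg T) :=
      lg_commute hT (((Commute.refl T).sub_left (Commute.one_left T)).pow_left n)
    have h1 : ((T - 1) ^ n) (lg T x) = lg T (((T - 1) ^ n) x) := LinearMap.congr_fun hc.eq x
    rw [h1]
    have h2 : ((T - 1) ^ 1 : Module.End ℚ Ψ) (((T - 1) ^ n : Module.End ℚ Ψ) x) = 0 := by
      rw [← Module.End.mul_apply, ← pow_add, add_comm 1 n]; exact hn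
    rw [lg_apply hT h2, lsum_apply, Finset.sum_range_one, bin_zero_coeff_one, zero_smul]

end Pool.Agent.Helper794NC
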