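import Pool.Agent.Helper794_NC.Core

set_option autoImplicit false

open scoped commutatorElement

namespace Pool.Agent.Helper794NC

universe u

/-- quotients inherit the normalizer condition -/
theorem normalizerCondition_quotient {G : Type u} [Group G] (hN : NormalizerCondition G)
    (K : Subgroup G) [K.Normal] : NormalizerCondition (G ⧸ K) := by
  rw [normalizerCondition_iff_only_full_group_self_normalizing] at hN ⊢
  intro H hH
  have hsurj := QuotientGroup.mk'_surjective K
  have h1 := Subgroup.comap_normalizer_eq_of_surjective H hsurj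
  rw [hH] at h1
  have h2 := hN _ h1.symm
  rw [Subgroup.eq_top_iff']
  intro x
  obtain ⟨y, rfl⟩ := hsurj x
  have : y ∈ Subgroup.comap (QuotientGroup.mk' K) H := by rw [h2]; exact Subgroup.mem_top y
  exact this

/-- relative version of the core lemma -/
theorem rel_core {G : Type u} [Group G] (hN : NormalizerCondition G) (K N : Subgroup G) [K.Normal]
    [N.Normal] (hne : ∃ y ∈ N, y ∉ K) (hab : ∀ a ∈ N, ∀ b ∈ N, ⁅a, b⁆ ∈ K)
    (htf : ∀ (n : ℕ), ∀ a ∈ N, 0 < n → a ^ n ∈ K → a ∈ K) (hc : ∀ x y : G, ⁅x, y⁆ ∈ N) :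
    ∃ y ∈ N, y ∉ K ∧ ∀ g, ⁅y, g⁆ ∈ K := by
  let π := QuotientGroup.mk' K
  have hπ : ∀ x, π x = 1 ↔ x ∈ K := fun x => QuotientGroup.eq_one_iff x
  have hsurj : Function.Surjective π := QuotientGroup.mk'_surjective K
  have hnorm : (N.map π).Normal := Subgroup.Normal.map inferInstance π hsurj
  obtain ⟨a, ⟨y, hy, rfl⟩, hne', hcen⟩ := core (normalizerCondition_quotient hN K) (N.map π)
    (by
      rintro _ ⟨a, ha, rfl⟩ _ ⟨b, hb, rfl⟩
      rw [← commutatorElement_eq_one_iff_mul_comm, ← map_commutatorElement, hπ]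
      exact hab a ha b hb)
    (by
      rintro n _ ⟨a, ha, rfl⟩ hn h
      rw [← map_pow, hπ] at h
      rw [hπ]
      exact htf n a ha hn h)
    (by
      intro x y
      obtain ⟨x, rfl⟩ := hsurj x
      obtain ⟨y, rfl⟩ := hsurj y
      exact ⟨⁅x, y⁆, hc x y, map_commutatorElement _ _ _⟩)
    (by
      obtain ⟨y, hy, hyK⟩ := hne
      intro h
      have h1 : π y ∈ N.map π := ⟨y, hy, rfl⟩
      rw [h, Subgroup.mem_bot, hπ] at h1
      exact hyK h1)
  refine ⟨y, hy, fun h => hne' ((hπ y).2 h), fun g => ?_⟩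
  rw [← hπ, map_commutatorElement, commutatorElement_eq_one_iff_mul_comm]
  exact (hcen (π g)).symm

/-- a finite ascending central series -/
def NilC {G : Type u} [Group G] (N : Subgroup G) (c : ℕ) : Prop :=
  ∃ f : ℕ → Subgroup G, f 0 = ⊥ ∧ N ≤ f c ∧ (∀ i, f i ≤ N) ∧ ∀ i, ∀ x ∈ f (i + 1), ∀ y ∈ N, ⁅x, y⁆ ∈ f i

lemma nilC_of_isNilpotent {G : Type u} [Group G] (N : Subgroup G) (h : Group.IsNilpotent N) :
    ∃ c, NilC N c := by
  obtain ⟨c, hc⟩ := h.nilpotent
  refine ⟨c, fun i => (Subgroup.upperCentralSeries N i).map N.subtype, ?_, ?_, ?_, ?_⟩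
  · simp
  · show N ≤ (Subgroup.upperCentralSeries N c).map N.subtype
    rw [hc, ← MonoidHom.range_eq_map, Subgroup.range_subtype]
  · rintro i _ ⟨x, _, rfl⟩
    exact x.2
  · rintro i _ ⟨x, hx, rfl⟩ y hy
    have hx' : x ∈ Subgroup.upperCentralSeries N (i + 1) := hx
    rw [Subgroup.mem_upperCentralSeries_succ_iff] at hx'
    exact ⟨_, hx' ⟨y, hy⟩, rfl⟩

lemma NilC.map {G H : Type u} [Group G] [Group H] {N : Subgroup G} {c : ℕ} (h : NilC N c) (π : G →* H) :
    NilC (N.map π) c := by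
  obtain ⟨f, h0, hc, hle, hcen⟩ := h
  refine ⟨fun i => (f i).map π, ?_, Subgroup.map_mono hc, fun i => Subgroup.map_mono (hle i), ?_⟩
  · simp [h0]
  · rintro i _ ⟨x, hx, rfl⟩ _ ⟨y, hy, rfl⟩
    exact ⟨_, hcen i x hx y hy, map_commutatorElement _ _ _⟩

/-- In a torsion-free nilpotent group centralizers are isolated. -/
lemma commute_of_pow {G : Type u} [Group G] {N : Subgroup G} {c : ℕ} (h : NilC N c)
    (htf : ∀ (n : ℕ), ∀ a ∈ N, 0 < n → a ^ n = 1 → a = 1) {n : ℕ} (hn : 0 < n) {x : G} (hx : x ∈ N)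
    {y : G} (hy : y ∈ N) (hxy : Commute (x ^ n) y) : Commute x y := by
  obtain ⟨f, h0, hc, hle, hcen⟩ := h
  have key : ∀ i, ∀ y ∈ f i, Commute (x ^ n) y → Commute x y := by
    intro i
    induction i with
    | zero =>
      intro y hy _
      rw [h0, Subgroup.mem_bot] at hy
      rw [hy]; exact Commute.one_right x
    | succ i ih =>
      intro y hy hxy
      have hw : ⁅x, y⁆ ∈ f i := by
        have h1 := hcen i y hy x hx
        rw [← commutatorElement_inv]
        exact Subgroup.inv_mem _ h1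
      have hxn : Commute (x ^ n) x := (Commute.refl x).pow_left n
      have hw2 : Commute (x ^ n) ⁅x, y⁆ := by
        rw [commutatorElement_def]
        exact ((hxn.mul_right hxy).mul_right hxn.inv_right).mul_right hxy.inv_right
      have hcw : Commute x ⁅x, y⁆ := ih _ hw hw2
      have hpow : ∀ k : ℕ, x ^ k * y = ⁅x, y⁆ ^ k * (y * x ^ k) := by
        intro k
        induction k with
        | zero => simp
        | succ k ihk =>
          have h2 : x * y = ⁅x, y⁆ * (y * x) := by rw [commutatorElement_def]; group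
          have h3 : x * ⁅x, y⁆ ^ k = ⁅x, y⁆ ^ k * x := (hcw.pow_right k).eq
          calc x ^ (k + 1) * y = x * (x ^ k * y) := by rw [pow_succ']; group
            _ = x * ⁅x, y⁆ ^ k * (y * x ^ k) := by rw [ihk]; group
            _ = ⁅x, y⁆ ^ k * (x * y) * x ^ k := by rw [h3]; group
            _ = ⁅x, y⁆ ^ (k + 1) * (y * x ^ (k + 1)) := by
              rw [h2, pow_succ, pow_succ']; group
      have h4 : ⁅x, y⁆ ^ n = 1 := by
        have h5 := hpow n
        rw [← hxy.eq] at h5
        exact (mul_eq_right.1 h5.symm)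
      have h6 : ⁅x, y⁆ = 1 := htf n _ (hle i hw) hn h4
      exact commutatorElement_eq_one_iff_mul_comm.1 h6
  exact key c y (hc hy) hxy

/-- uniqueness of roots -/
lemma eq_of_pow_eq {G : Type u} [Group G] {N : Subgroup G} {c : ℕ} (h : NilC N c)
    (htf : ∀ (n : ℕ), ∀ a ∈ N, 0 < n → a ^ n = 1 → a = 1) {n : ℕ} (hn : 0 < n) {x : G} (hx : x ∈ N)
    {y : G} (hy : y ∈ N) (hxy : x ^ n = y ^ n) : x = y := by
  have h1 : Commute (x ^ n) y := by rw [hxy]; exact (Commute.refl y).pow_left n
  have h2 : Commute x y := commute_of_pow h htf hn hx hy h1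
  have h3 : (x * y⁻¹) ^ n = 1 := by
    rw [h2.inv_right.mul_pow, inv_pow, hxy, mul_inv_cancel]
  exact mul_inv_eq_one.1 (htf n _ (N.mul_mem hx (N.inv_mem hy)) hn h3)

/-- **Main lemma.** A nontrivial torsion-free nilpotent normal subgroup with abelian quotient of a
group with the normalizer condition contains a nontrivial central element. -/
theorem exists_central (c : ℕ) : ∀ {G : Type u} [Group G] (_ : NormalizerCondition G) (N : Subgroup G)
    [N.Normal] (_ : ∀ (n : ℕ), ∀ a ∈ N, 0 < n → a ^ n = 1 → a = 1) (_ : ∀ x y : G, ⁅x, y⁆ ∈ N)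
    (_ : NilC N c) (_ : N ≠ ⊥), ∃ z ∈ N, z ≠ 1 ∧ ∀ g, g * z = z * g := by
  induction c with
  | zero =>
    intro G _ _ N _ _ _ hnil hne
    obtain ⟨f, h0, hc, _, _⟩ := hnil
    rw [h0] at hc
    exact absurd (le_bot_iff.1 hc) hne
  | succ c ih =>
    intro G _ hN N hNn htf hcomm hnil hne
    -- the centre of `N`
    let Z : Subgroup G := N ⊓ Subgroup.centralizer (N : Set G)
    have hZ : ∀ z, z ∈ Z ↔ z ∈ N ∧ ∀ y ∈ N, y * z = z * y := by
      intro z
      rw [Subgroup.mem_inf, Subgroup.mem_centralizer_iff]; rfl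
    have hZn : Z.Normal := by
      constructor
      intro z hz g
      rw [hZ] at hz ⊢
      refine ⟨hNn.conj_mem z hz.1 g, fun y hy => ?_⟩
      have h1 := hz.2 (g⁻¹ * y * g) (by simpa using hNn.conj_mem y hy g⁻¹)
      calc y * (g * z * g⁻¹) = g * ((g⁻¹ * y * g) * z) * g⁻¹ := by group
        _ = g * (z * (g⁻¹ * y * g)) * g⁻¹ := by rw [h1]
        _ = g * z * g⁻¹ * y := by group
    by_cases hab : ∀ a ∈ N, ∀ b ∈ N, a * b = b * a
    · exact core hN N hab htf hcomm hne
    · push Not at hab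
      obtain ⟨a, ha, b, hb, hab⟩ := hab
      -- pass to the quotient by `Z`
      let π := QuotientGroup.mk' Z
      have hπ : ∀ x, π x = 1 ↔ x ∈ Z := fun x => QuotientGroup.eq_one_iff x
      have hsurj : Function.Surjective π := QuotientGroup.mk'_surjective Z
      have hnorm : (N.map π).Normal := Subgroup.Normal.map inferInstance π hsurj
      have hnil' : NilC (N.map π) c := by
        obtain ⟨f, h0, hc, hle, hcen⟩ := hnil
        refine ⟨fun i => (f (i + 1)).map π, ?_, Subgroup.map_mono hc,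
          fun i => Subgroup.map_mono (hle _), ?_⟩
        · show (f (0 + 1)).map π = ⊥
          rw [Subgroup.eq_bot_iff_forall]
          rintro _ ⟨x, hx, rfl⟩
          rw [hπ, hZ]
          refine ⟨hle _ hx, fun y hy => ?_⟩
          have h1 := hcen 0 x hx y hy
          rw [h0, Subgroup.mem_bot, commutatorElement_eq_one_iff_mul_comm] at h1
          exact h1.symm
        · rintro i _ ⟨x, hx, rfl⟩ _ ⟨y, hy, rfl⟩
          exact ⟨_, hcen (i + 1) x hx y hy, map_commutatorElement _ _ _⟩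
      obtain ⟨_, ⟨x, hxN, rfl⟩, hxne, hxc⟩ := ih (normalizerCondition_quotient hN Z) (N.map π)
        (by
          rintro n _ ⟨w, hw, rfl⟩ hn h
          rw [← map_pow, hπ, hZ] at h
          rw [hπ, hZ]
          exact ⟨hw, fun y hy => (commute_of_pow hnil htf hn hw hy (h.2 y hy).symm).eq.symm⟩)
        (by
          intro x y
          obtain ⟨x, rfl⟩ := hsurj x
          obtain ⟨y, rfl⟩ := hsurj y
          exact ⟨⁅x, y⁆, hcomm x y, map_commutatorElement _ _ _⟩)
        hnil'
        (by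
          intro h
          have h1 : π a ∈ N.map π := ⟨a, ha, rfl⟩
          rw [h, Subgroup.mem_bot, hπ, hZ] at h1
          exact hab (h1.2 b hb).symm)
      have hxZ : x ∉ Z := fun h => hxne ((hπ x).2 h)
      have hxg : ∀ g, ⁅x, g⁆ ∈ Z := by
        intro g
        rw [← hπ, map_commutatorElement, commutatorElement_eq_one_iff_mul_comm]
        exact (hxc (π g)).symm
      -- conjugates of `x`
      have hconj : ∀ g, ∃ z ∈ Z, g * x * g⁻¹ = z * x := by
        intro g
        refine ⟨⁅g, x⁆, ?_, ?_⟩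
        · rw [← commutatorElement_inv]; exact Z.inv_mem (hxg g)
        · rw [commutatorElement_def]; group
      let C : Subgroup G := N ⊓ Subgroup.centralizer {x}
      have hC : ∀ y, y ∈ C ↔ y ∈ N ∧ x * y = y * x := by
        intro y
        rw [Subgroup.mem_inf, Subgroup.mem_centralizer_singleton_iff]
        exact ⟨fun h => ⟨h.1, h.2.symm⟩, fun h => ⟨h.1, h.2.symm⟩⟩
      have hCn : C.Normal := by
        constructor
        intro y hy g
        rw [hC] at hy ⊢
        refine ⟨hNn.conj_mem y hy.1 g, ?_⟩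
        obtain ⟨z, hz, hzx⟩ := hconj g⁻¹
        rw [inv_inv] at hzx
        have h1 : (g⁻¹ * x * g) * y = y * (g⁻¹ * x * g) := by
          rw [hzx]
          have h2 := ((hZ z).1 hz).2 y hy.1
          calc z * x * y = z * (x * y) := by group
            _ = z * y * x := by rw [hy.2]; group
            _ = y * (z * x) := by rw [← h2]; group
        calc x * (g * y * g⁻¹) = g * ((g⁻¹ * x * g) * y) * g⁻¹ := by group
          _ = g * (y * (g⁻¹ * x * g)) * g⁻¹ := by rw [h1]
          _ = g * y * g⁻¹ * x := by group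
      -- `y ↦ [x, y]` is a homomorphism from `N` to `Z`
      have hbil : ∀ y ∈ N, ∀ y', ⁅x, y * y'⁆ = ⁅x, y⁆ * ⁅x, y'⁆ := by
        intro y hy y'
        have h1 : ⁅x, y * y'⁆ = ⁅x, y⁆ * (y * ⁅x, y'⁆ * y⁻¹) := by
          simp only [commutatorElement_def]; group
        have h2 := ((hZ _).1 (hxg y')).2 y hy
        rw [h1, h2]; group
      have hpowc : ∀ n : ℕ, ∀ y ∈ N, ⁅x, y ^ n⁆ = ⁅x, y⁆ ^ n := by
        intro n y hy
        induction n with
        | zero => simp
        | succ n ihn => rw [pow_succ, hbil _ (N.pow_mem hy n), ihn, pow_succ]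
      have hCiff : ∀ y, y ∈ N → (y ∈ C ↔ ⁅x, y⁆ = 1) := by
        intro y hy
        rw [hC, commutatorElement_eq_one_iff_mul_comm]
        exact ⟨fun h => h.2, fun h => ⟨hy, h⟩⟩
      obtain ⟨y, hy, hyC, hyg⟩ := rel_core hN C N
        (by
          by_contra hcon
          push Not at hcon
          apply hxZ
          rw [hZ]
          refine ⟨hxN, fun y hy => ?_⟩
          exact ((hC y).1 (hcon y hy)).2.symm)
        (by
          intro a ha b hb
          have hab' : ⁅a, b⁆ ∈ N := hcomm a b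
          rw [hCiff _ hab']
          have e1 : ∀ y ∈ N, ⁅x, y⁻¹⁆ = ⁅x, y⁆⁻¹ := by
            intro y hy
            have h1 := hbil y hy y⁻¹
            rw [mul_inv_cancel, commutatorElement_one_right] at h1
            exact (inv_eq_of_mul_eq_one_right h1.symm).symm
          have h2 := ((hZ _).1 (hxg a)).2 ⁅x, b⁆ ((hZ _).1 (hxg b)).1
          rw [commutatorElement_def a b, hbil _ (N.mul_mem (N.mul_mem ha hb) (N.inv_mem ha)),
            hbil _ (N.mul_mem ha hb), hbil _ ha, e1 a ha, e1 b hb, ← h2]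
          group)
        (by
          intro n a ha hn h
          rw [hCiff _ (N.pow_mem ha n), hpowc n a ha] at h
          rw [hCiff _ ha]
          exact htf n _ (hcomm _ _) hn h)
        hcomm
      refine ⟨⁅x, y⁆, hcomm x y, fun h => hyC ((hCiff y hy).2 h), fun g => ?_⟩
      obtain ⟨z, hz, hzx⟩ := hconj g
      have hyc : ⁅y, g⁻¹⁆ ∈ C := hyg g⁻¹
      have hyc' : ⁅g, y⁆ ∈ C := by rw [← commutatorElement_inv]; exact C.inv_mem (hyg g)
      have h1 : g * ⁅x, y⁆ * g⁻¹ = ⁅g * x * g⁻¹, g * y * g⁻¹⁆ := by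
        simp only [commutatorElement_def]; group
      have h2 : g * y * g⁻¹ = ⁅g, y⁆ * y := by rw [commutatorElement_def]; group
      have hyN' : ⁅g, y⁆ * y ∈ N := N.mul_mem (hcomm _ _) hy
      have h3 : ⁅z * x, ⁅g, y⁆ * y⁆ = ⁅x, ⁅g, y⁆ * y⁆ := by
        have h4 := ((hZ z).1 hz).2 _ (hcomm x (⁅g, y⁆ * y))
        have h5 := ((hZ z).1 hz).2 _ hyN'
        set w := ⁅g, y⁆ * y
        have h6 : ⁅z * x, w⁆ = z * ⁅x, w⁆ * (w * z⁻¹ * w⁻¹) := by
          simp only [commutatorElement_def]; group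
        have h7 : w * z⁻¹ * w⁻¹ = z⁻¹ := by
          have : w * z⁻¹ = z⁻¹ * w := by
            calc w * z⁻¹ = z⁻¹ * (z * w) * z⁻¹ := by group
              _ = z⁻¹ * (w * z) * z⁻¹ := by rw [h5]
              _ = z⁻¹ * w := by group
          rw [this]; group
        rw [h6, h7, ← h4]; group
      have h8 : ⁅x, ⁅g, y⁆ * y⁆ = ⁅x, y⁆ := by
        rw [hbil _ (hcomm g y), (hCiff _ (hcomm g y)).1 hyc', one_mul]
      have h9 : g * ⁅x, y⁆ * g⁻¹ = ⁅x, y⁆ := by
        rw [h1, hzx, h2, h3, h8]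
      calc g * ⁅x, y⁆ = g * ⁅x, y⁆ * g⁻¹ * g := by group
        _ = ⁅x, y⁆ * g := by rw [h9]

/-- **Main theorem.** A group with the normalizer condition which has a torsion-free nilpotent normal
subgroup with abelian quotient is hypercentral. -/
theorem main {G : Type u} [Group G] (hN : NormalizerCondition G) (N : Subgroup G) [hNn : N.Normal]
    (hnil : Group.IsNilpotent N) (htf : ∀ (n : ℕ), ∀ a ∈ N, 0 < n → a ^ n = 1 → a = 1)
    (hcomm : ∀ x y : G, ⁅x, y⁆ ∈ N) (M₀ : Subgroup G) (hM₀ : M₀.Normal) (hM₀' : M₀ ≠ ⊤) :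
    ∃ g : G, g ∉ M₀ ∧ ∀ x : G, x * g * x⁻¹ * g⁻¹ ∈ M₀ := by
  obtain ⟨c, hc⟩ := nilC_of_isNilpotent N hnil
  by_contra hcon
  push Not at hcon
  -- `M₀` is closed under central elements
  have hclosed : ∀ g : G, (∀ x : G, ⁅x, g⁆ ∈ M₀) → g ∈ M₀ := by
    intro g hg
    by_contra hgM
    obtain ⟨x, hx⟩ := hcon g hgM
    exact hx (hg x)
  let P : Set (Subgroup G) := {M | M.Normal ∧ M ≤ N ∧ M ≤ M₀ ∧
    ∀ (n : ℕ), ∀ a ∈ N, 0 < n → a ^ n ∈ M → a ∈ M}
  obtain ⟨M, _, hM⟩ := zorn_le_nonempty₀ P (by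
      intro C hC hchain y hy
      have hdir : DirectedOn (· ≤ ·) C := hchain.directedOn
      refine ⟨sSup C, ⟨?_, ?_, ?_, ?_⟩, fun z hz => le_sSup hz⟩
      · constructor
        intro a ha g
        rw [Subgroup.mem_sSup_of_directedOn ⟨y, hy⟩ hdir] at ha ⊢
        obtain ⟨K, hK, haK⟩ := ha
        exact ⟨K, hK, (hC hK).1.conj_mem a haK g⟩
      · exact sSup_le fun K hK => (hC hK).2.1
      · exact sSup_le fun K hK => (hC hK).2.2.1
      · intro n a ha hn h
        rw [Subgroup.mem_sSup_of_directedOn ⟨y, hy⟩ hdir] at h ⊢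
        obtain ⟨K, hK, haK⟩ := h
        exact ⟨K, hK, (hC hK).2.2.2 n a ha hn haK⟩) ⊥
      ⟨inferInstance, bot_le, bot_le, fun n a ha hn h => by
        rw [Subgroup.mem_bot] at h ⊢; exact htf n a ha hn h⟩
  obtain ⟨hMn, hMN, hMM₀, hMi⟩ := hM.prop
  let π := QuotientGroup.mk' M
  have hπ : ∀ x, π x = 1 ↔ x ∈ M := fun x => QuotientGroup.eq_one_iff x
  have hsurj : Function.Surjective π := QuotientGroup.mk'_surjective M
  have hnorm : (N.map π).Normal := Subgroup.Normal.map inferInstance π hsurj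
  have htf' : ∀ (n : ℕ), ∀ a ∈ N.map π, 0 < n → a ^ n = 1 → a = 1 := by
    rintro n _ ⟨a, ha, rfl⟩ hn h
    rw [← map_pow, hπ] at h
    rw [hπ]
    exact hMi n a ha hn h
  -- the elements of `N` central modulo `M` lie in `M`
  have hkey : ∀ z ∈ N, (∀ x : G, ⁅x, z⁆ ∈ M) → z ∈ M := by
    let M' : Subgroup G :=
      { carrier := {z | z ∈ N ∧ ∀ x, π x * π z = π z * π x}
        one_mem' := ⟨N.one_mem, fun x => by rw [map_one]; simp⟩
        mul_mem' := by
          rintro a b ⟨ha, ha'⟩ ⟨hb, hb'⟩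
          refine ⟨N.mul_mem ha hb, fun x => ?_⟩
          rw [map_mul, ← mul_assoc, ha', mul_assoc, hb', mul_assoc]
        inv_mem' := by
          rintro a ⟨ha, ha'⟩
          refine ⟨N.inv_mem ha, fun x => ?_⟩
          rw [map_inv]
          exact ((show Commute (π x) (π a) from ha' x).inv_right).eq }
    have hMM' : M ≤ M' := by
      intro a ha
      refine ⟨hMN ha, fun x => ?_⟩
      rw [(hπ a).2 ha]; simp
    have hM'P : M' ∈ P := by
      refine ⟨?_, fun a ha => ha.1, ?_, ?_⟩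
      · constructor
        rintro a ⟨ha, ha'⟩ g
        refine ⟨hNn.conj_mem a ha g, fun x => ?_⟩
        have h1 : π (g * a * g⁻¹) = π a := by
          rw [map_mul, map_mul, ha', map_inv, mul_inv_cancel_right]
        rw [h1]; exact ha' x
      · rintro a ⟨ha, ha'⟩
        apply hclosed
        intro x
        apply hMM₀
        rw [← hπ, map_commutatorElement, commutatorElement_eq_one_iff_mul_comm]
        exact ha' x
      · rintro n a ha hn ⟨_, h⟩
        refine ⟨ha, fun x => ?_⟩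
        have h1 : (π (x * a * x⁻¹)) ^ n = (π a) ^ n := by
          rw [← map_pow, conj_pow, map_mul, map_mul, h x, map_inv, mul_inv_cancel_right, map_pow]
        have h2 := eq_of_pow_eq (hc.map π) htf' hn ⟨_, hNn.conj_mem a ha x, rfl⟩ ⟨_, ha, rfl⟩ h1
        rw [map_mul, map_mul, map_inv] at h2
        exact mul_inv_eq_iff_eq_mul.1 h2
    have hle : M' ≤ M := hM.le_of_ge hM'P hMM'
    intro z hz hzx
    apply hle
    refine ⟨hz, fun x => ?_⟩
    rw [← commutatorElement_eq_one_iff_mul_comm, ← map_commutatorElement, hπ]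
    exact hzx x
  by_cases hNM : N ≤ M
  · -- then `G / M₀` is abelian
    have : ∃ g, g ∉ M₀ := by
      by_contra hne
      push Not at hne
      exact hM₀' ((Subgroup.eq_top_iff' M₀).2 hne)
    obtain ⟨g, hg⟩ := this
    exact hg (hclosed g fun x => hMM₀ (hNM (hcomm x g)))
  · obtain ⟨_, ⟨z, hz, rfl⟩, hzne, hzc⟩ := exists_central c (normalizerCondition_quotient hN M)
      (N.map π) htf'
      (by
        intro x y
        obtain ⟨x, rfl⟩ := hsurj x
        obtain ⟨y, rfl⟩ := hsurj y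
        exact ⟨⁅x, y⁆, hcomm x y, map_commutatorElement _ _ _⟩)
      (hc.map π)
      (by
        intro h
        apply hNM
        intro a ha
        have h1 : π a ∈ N.map π := ⟨a, ha, rfl⟩
        rwa [h, Subgroup.mem_bot, hπ] at h1)
    apply hzne
    rw [hπ]
    apply hkey z hz
    intro x
    rw [← hπ, map_commutatorElement, commutatorElement_eq_one_iff_mul_comm]
    exact hzc (π x)

end Pool.Agent.Helper794NC
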