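import Mathlib

set_option autoImplicit false

open scoped commutatorElement

namespace Pool.Agent.Helper794NC

variable {G : Type*} [Group G]

/-- In a group with the normalizer condition, an infinite left-normed commutator
`q₀, [q₀,u₀], [q₀,u₀,u₁], …` has a term in the subgroup generated by the `uᵢ`. -/
theorem seq_mem (hN : NormalizerCondition G) (u q : ℕ → G)
    (hq : ∀ n, q (n + 1) = ⁅q n, u n⁆) :
    ∃ n, q n ∈ Subgroup.closure (Set.range u) := by
  by_contra hcon
  push Not at hcon
  obtain ⟨K, hHK, hK⟩ := zorn_le_nonempty₀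
    {K : Subgroup G | Subgroup.closure (Set.range u) ≤ K ∧ ∀ n, q n ∉ K} (by
      intro c hc hchain y hy
      refine ⟨sSup c, ⟨?_, ?_⟩, fun z hz => le_sSup hz⟩
      · exact (hc hy).1.trans (le_sSup hy)
      · intro n hn
        rw [Subgroup.mem_sSup_of_directedOn ⟨y, hy⟩ hchain.directedOn] at hn
        obtain ⟨K, hKc, hnK⟩ := hn
        exact (hc hKc).2 n hnK)
    (Subgroup.closure (Set.range u)) ⟨le_rfl, hcon⟩
  have hK1 := hK.prop
  have htop : K < ⊤ := by
    refine lt_top_iff_ne_top.2 fun h => hK1.2 0 ?_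
    rw [h]; exact Subgroup.mem_top _
  have hlt := hN K htop
  have hex : ∃ n, q n ∈ Subgroup.normalizer (K : Set G) := by
    by_contra hne
    push Not at hne
    exact hlt.not_ge (hK.le_of_ge ⟨hK1.1.trans hlt.le, hne⟩ hlt.le)
  obtain ⟨n, hn⟩ := hex
  apply hK1.2 (n + 1)
  rw [hq n, commutatorElement_def]
  have hu : u n ∈ K := hK1.1 (Subgroup.subset_closure ⟨n, rfl⟩)
  have h1 : q n * u n * (q n)⁻¹ ∈ K := (Subgroup.mem_normalizer_iff.1 hn (u n)).1 hu
  exact K.mul_mem h1 (K.inv_mem hu)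

end Pool.Agent.Helper794NC
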