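import Pool.Agent.Helper794_NC.Act
import Pool.Agent.Helper794_NC.Lattice

set_option autoImplicit false

namespace Pool.Agent.Helper794NC

variable {G : Type*} [Group G] {V : Type*} [AddCommGroup V] [Module ℚ V]

/-- A commuting locally unipotent action together with the commutator functions `φ d v = [d, v]`. -/
structure Cocy (ρ : G →* Module.End ℚ V) (φ : G → G → V) : Prop extends UAct ρ where
  mul : ∀ d d' v, φ (d * d') v = φ d v + ρ d (φ d' v)
  prin : ∀ x : V, ∃ n : ℕ, 0 < n ∧ ∃ b : G, ρ b = 1 ∧ ∀ v, φ b v = n • (x - ρ v x)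

/-- the additive group generated by the functions `φ d`, `d ∈ D` -/
def Fs (φ : G → G → V) (D : Subgroup G) : Submodule ℤ (G → V) := Submodule.span ℤ (φ '' D)

/-- the stabilizer of a subspace -/
def stab (ρ : G →* Module.End ℚ V) (Q : Submodule ℚ V) : Subgroup G where
  carrier := {w | (∀ x ∈ Q, ρ w x ∈ Q) ∧ (∀ x ∈ Q, ρ w⁻¹ x ∈ Q)}
  one_mem' := by simp
  mul_mem' := by
    rintro a b ⟨h1, h2⟩ ⟨h3, h4⟩
    refine ⟨fun x hx => ?_, fun x hx => ?_⟩
    · rw [map_mul, Module.End.mul_apply]; exact h1 _ (h3 _ hx)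
    · rw [mul_inv_rev, map_mul, Module.End.mul_apply]; exact h4 _ (h2 _ hx)
  inv_mem' := by
    rintro a ⟨h1, h2⟩
    exact ⟨h2, by simpa using h1⟩

lemma Cocy.map_one' {ρ : G →* Module.End ℚ V} {φ : G → G → V} (h : Cocy ρ φ) (v : G) : φ 1 v = 0 := by
  have h1 := h.mul 1 1 v
  rw [mul_one, map_one, Module.End.one_apply] at h1
  exact left_eq_add.1 h1

lemma Cocy.map_inv' {ρ : G →* Module.End ℚ V} {φ : G → G → V} (h : Cocy ρ φ) (w v : G) :
    φ w⁻¹ v = - ρ w⁻¹ (φ w v) := by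
  have h1 := h.mul w⁻¹ w v
  rw [inv_mul_cancel, h.map_one'] at h1
  exact eq_neg_of_add_eq_zero_left h1.symm

lemma Cocy.map_pow' {ρ : G →* Module.End ℚ V} {φ : G → G → V} (h : Cocy ρ φ) (w v : G) (M : ℕ) :
    φ (w ^ M) v = (∑ i ∈ Finset.range M, (ρ w) ^ i) (φ w v) := by
  induction M with
  | zero => rw [pow_zero, h.map_one', Finset.sum_range_zero, LinearMap.zero_apply]
  | succ M ih =>
    rw [pow_succ, h.mul, ih, Finset.sum_range_succ, LinearMap.add_apply, map_pow]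

lemma Cocy.F_stable {ρ : G →* Module.End ℚ V} {φ : G → G → V} (h : Cocy ρ φ) (D : Subgroup G) {d : G}
    (hd : d ∈ D) (x : G → V) (hx : x ∈ Fs φ D) : piAct ρ G d x ∈ Fs φ D := by
  have : Fs φ D ≤ (Fs φ D).comap (piAct ρ G d).toAddMonoidHom.toIntLinearMap := by
    unfold Fs
    rw [Submodule.span_le]
    rintro _ ⟨d', hd', rfl⟩
    show piAct ρ G d (φ d') ∈ Submodule.span ℤ (φ '' D)
    have h1 : piAct ρ G d (φ d') = φ (d * d') - φ d := by
      funext v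
      rw [piAct_apply, Pi.sub_apply, h.mul]; abel
    rw [h1]
    exact Submodule.sub_mem _ (Submodule.subset_span ⟨_, D.mul_mem hd hd', rfl⟩)
      (Submodule.subset_span ⟨d, hd, rfl⟩)
  exact this hx

lemma map_inv_eq {ρ : G →* Module.End ℚ V} {a b : G} (h : ρ a = ρ b) : ρ a⁻¹ = ρ b⁻¹ := by
  have h1 : ρ a⁻¹ * (ρ b * ρ b⁻¹) = ρ a⁻¹ := by
    rw [← map_mul, mul_inv_cancel, map_one, mul_one]
  rw [← h1, ← h, ← mul_assoc, ← map_mul ρ a⁻¹ a, inv_mul_cancel, map_one, one_mul]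

theorem Cocy.step_one {ρ : G →* Module.End ℚ V} {φ : G → G → V} (h : Cocy ρ φ) (D : Subgroup G)
    (hD : D.FG) (θ : G → V)
    (H : ∀ u : G, ∀ W : Finset G, ∃ ψ ∈ Fs φ (D ⊔ Subgroup.zpowers u), ∀ v ∈ W, ψ v = θ v - ρ u (θ v))
    (W₀ : Finset G) (g : G) (M : ℕ) (hM : 0 < M) :
    ∃ ψ ∈ Submodule.span ℤ {y : G → V | ∃ w ∈ Subgroup.zpowers (g ^ M), ∃ x ∈ Fs φ D,
      y = piAct ρ G w x}, ∀ v ∈ W₀, ψ v = θ v - ρ (g ^ M) (θ v) := by
  classical
  obtain ⟨SD, hSD⟩ := hD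
  have hU := h.toUAct
  -- the small space
  obtain ⟨Q₀₀, hQ₀₀fd, hQ₀₀mem, hQ₀₀st⟩ := exists_hullQ h.comm h.unip (SD ∪ {g}) (W₀.image fun v => φ g v)
  have hDQ₀₀ : D ≤ stab ρ Q₀₀ := by
    rw [← hSD, Subgroup.closure_le]
    intro s hs
    exact hQ₀₀st s (Finset.mem_union_left _ hs)
  have hgQ₀₀ : g ∈ stab ρ Q₀₀ := hQ₀₀st g (Finset.mem_union_right _ (Finset.mem_singleton_self g))
  obtain ⟨W₁, hW₁⟩ := hU.exists_finset Q₀₀
  -- the big space
  set W := W₀ ∪ W₁ with hW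
  obtain ⟨Q₀, hQ₀fd, hQ₀mem, hQ₀st⟩ := exists_hullQ h.comm h.unip (SD ∪ {g} ∪ W)
    ((W.image fun v => φ g v) ∪ (W.image θ) ∪ ((SD ×ˢ W).image fun p => φ p.1 p.2))
  have hDQ₀ : D ≤ stab ρ Q₀ := by
    rw [← hSD, Subgroup.closure_le]
    intro s hs
    exact hQ₀st s (Finset.mem_union_left _ (Finset.mem_union_left _ hs))
  have hgQ₀ : g ∈ stab ρ Q₀ :=
    hQ₀st g (Finset.mem_union_left _ (Finset.mem_union_right _ (Finset.mem_singleton_self g)))
  have hWQ₀ : ∀ v ∈ W, v ∈ stab ρ Q₀ := fun v hv => hQ₀st v (Finset.mem_union_right _ hv)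
  have hgv : ∀ v ∈ W, φ g v ∈ Q₀ := fun v hv =>
    hQ₀mem _ (Finset.mem_union_left _ (Finset.mem_union_left _ (Finset.mem_image_of_mem _ hv)))
  have hθv : ∀ v ∈ W, θ v ∈ Q₀ := fun v hv =>
    hQ₀mem _ (Finset.mem_union_left _ (Finset.mem_union_right _ (Finset.mem_image_of_mem _ hv)))
  have hdv : ∀ d ∈ D, ∀ v ∈ W, φ d v ∈ Q₀ := by
    let K : Subgroup G :=
      { carrier := {w | w ∈ stab ρ Q₀ ∧ ∀ v ∈ W, φ w v ∈ Q₀}
        one_mem' := ⟨Subgroup.one_mem _, fun v _ => by rw [h.map_one']; exact Q₀.zero_mem⟩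
        mul_mem' := by
          rintro a b ⟨h1, h2⟩ ⟨h3, h4⟩
          refine ⟨Subgroup.mul_mem _ h1 h3, fun v hv => ?_⟩
          rw [h.mul]
          exact Q₀.add_mem (h2 v hv) (h1.1 _ (h4 v hv))
        inv_mem' := by
          rintro a ⟨h1, h2⟩
          refine ⟨Subgroup.inv_mem _ h1, fun v hv => ?_⟩
          rw [h.map_inv']
          exact Q₀.neg_mem (h1.2 _ (h2 v hv)) }
    have hDK : D ≤ K := by
      rw [← hSD, Subgroup.closure_le]
      intro s hs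
      refine ⟨hQ₀st s (Finset.mem_union_left _ (Finset.mem_union_left _ hs)), fun v hv => ?_⟩
      exact hQ₀mem _ (Finset.mem_union_right _ (Finset.mem_image.2 ⟨(s, v), Finset.mk_mem_product hs hv, rfl⟩))
    exact fun d hd => (hDK hd).2
  have hFv : ∀ x ∈ Fs φ D, ∀ v ∈ W, x v ∈ Q₀ := by
    intro x hx v hv
    unfold Fs at hx
    induction hx using Submodule.span_induction with
    | mem x hx => obtain ⟨d, hd, rfl⟩ := hx; exact hdv d hd v hv
    | zero => exact Q₀.zero_mem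
    | add x y _ _ h1 h2 => exact Q₀.add_mem h1 h2
    | smul a x _ h1 => exact Q₀.smul_of_tower_mem a h1
  -- the generic element
  obtain ⟨b', hb'⟩ := hU.exists_generic Q₀
  obtain ⟨n, hn0, b, hb1, hbφ⟩ := h.prin b'
  set u := (g * b) ^ M with hu
  have hρu : ρ u = ρ (g ^ M) := by
    rw [hu, map_pow, map_mul, hb1, mul_one, map_pow]
  have hρu' : ρ u⁻¹ = ρ (g ^ M)⁻¹ := map_inv_eq hρu
  have hgM : ∀ Q : Submodule ℚ V, g ∈ stab ρ Q → g ^ M ∈ stab ρ Q := fun Q hQ => Subgroup.pow_mem _ hQ M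
  obtain ⟨ψ, hψF, hψ⟩ := H u W
  set S : Submodule ℤ (G → V) := Submodule.span ℤ {y : G → V | ∃ w ∈ Subgroup.zpowers (g ^ M), ∃ x ∈ Fs φ D,
      y = piAct ρ G w x} with hS
  have hSv : ∀ x ∈ S, ∀ v ∈ W, x v ∈ Q₀ := by
    intro x hx v hv
    rw [hS] at hx
    induction hx using Submodule.span_induction with
    | mem x hx =>
      obtain ⟨w, hw, y, hy, rfl⟩ := hx
      rw [piAct_apply]
      have hw' : w ∈ stab ρ Q₀ := (Subgroup.zpowers_le.2 (hgM Q₀ hgQ₀)) hw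
      exact hw'.1 _ (hFv y hy v hv)
    | zero => exact Q₀.zero_mem
    | add x y _ _ h1 h2 => exact Q₀.add_mem h1 h2
    | smul a x _ h1 => exact Q₀.smul_of_tower_mem a h1
  have hScomap : ∀ w : G, (∀ w' ∈ Subgroup.zpowers (g ^ M), ∀ x ∈ Fs φ D, piAct ρ G w (piAct ρ G w' x) ∈ S) →
      ∀ x ∈ S, piAct ρ G w x ∈ S := by
    intro w hw x hx
    have : S ≤ S.comap (piAct ρ G w).toAddMonoidHom.toIntLinearMap := by
      conv_lhs => rw [hS]
      rw [Submodule.span_le]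
      rintro _ ⟨w', hw', y, hy, rfl⟩
      exact hw w' hw' y hy
    exact this hx
  have hSD' : ∀ d ∈ D, ∀ x ∈ S, piAct ρ G d x ∈ S := by
    intro d hd
    apply hScomap
    intro w' hw' x hx
    have h1 : piAct ρ G d (piAct ρ G w' x) = piAct ρ G w' (piAct ρ G d x) := by
      funext v
      simp only [piAct_apply]
      exact LinearMap.congr_fun (h.comm d w').eq (x v)
    rw [h1]
    exact Submodule.subset_span ⟨w', hw', _, h.F_stable D hd x hx, rfl⟩
  have hSg : ∀ w ∈ Subgroup.zpowers (g ^ M), ∀ x ∈ S, piAct ρ G w x ∈ S := by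
    intro w hw
    apply hScomap
    intro w' hw' x hx
    rw [← Module.End.mul_apply, ← map_mul]
    exact Submodule.subset_span ⟨w * w', Subgroup.mul_mem _ hw hw', x, hx, rfl⟩
  let R : Module.End ℚ V → Prop := fun f =>
    (∀ g', Commute f (ρ g')) ∧ (∀ x ∈ Q₀, f x ∈ Q₀) ∧ (∀ x ∈ Q₀₀, f x ∈ Q₀₀)
  have hRmul : ∀ w ∈ stab ρ Q₀, w ∈ stab ρ Q₀₀ → ∀ f, R f → R (ρ w * f) := by
    intro w h1 h2 f hf
    exact ⟨fun g' => (h.comm w g').mul_left (hf.1 g'), fun x hx => h1.1 _ (hf.2.1 x hx),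
      fun x hx => h2.1 _ (hf.2.2 x hx)⟩
  let X : Submodule ℤ (G → V) :=
    { carrier := {ψ | ∃ ψ₁ ∈ S, ∃ f, R f ∧ ψ = ψ₁ + fun v => f (φ u v)}
      zero_mem' := by
        refine ⟨0, S.zero_mem, 0, ⟨fun g' => Commute.zero_left _, ?_, ?_⟩, ?_⟩
        · intro x _; exact Q₀.zero_mem
        · intro x _; exact Q₀₀.zero_mem
        · funext v; simp
      add_mem' := by
        rintro _ _ ⟨a, ha, f, hf, rfl⟩ ⟨a', ha', f', hf', rfl⟩
        refine ⟨a + a', S.add_mem ha ha', f + f', ⟨fun g' => (hf.1 g').add_left (hf'.1 g'), ?_, ?_⟩, ?_⟩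
        · intro x hx; exact Q₀.add_mem (hf.2.1 x hx) (hf'.2.1 x hx)
        · intro x hx; exact Q₀₀.add_mem (hf.2.2 x hx) (hf'.2.2 x hx)
        · funext v
          simp only [Pi.add_apply, LinearMap.add_apply]
          abel
      smul_mem' := by
        rintro c _ ⟨a, ha, f, hf, rfl⟩
        refine ⟨c • a, S.smul_mem c ha, c • f, ⟨fun g' => (hf.1 g').smul_left c, ?_, ?_⟩, ?_⟩
        · intro x hx; exact Q₀.smul_of_tower_mem c (hf.2.1 x hx)
        · intro x hx; exact Q₀₀.smul_of_tower_mem c (hf.2.2 x hx)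
        · funext v
          simp only [Pi.add_apply, LinearMap.smul_apply, Pi.smul_apply, smul_add] }
  have hXact : ∀ w ∈ stab ρ Q₀, w ∈ stab ρ Q₀₀ → (∀ x ∈ S, piAct ρ G w x ∈ S) →
      ∀ x ∈ X, piAct ρ G w x ∈ X := by
    rintro w h1 h2 h3 _ ⟨a, ha, f, hf, rfl⟩
    refine ⟨piAct ρ G w a, h3 a ha, ρ w * f, hRmul w h1 h2 f hf, ?_⟩
    rw [map_add]
    rfl
  let K : Subgroup G :=
    { carrier := {w | (∀ x ∈ X, piAct ρ G w x ∈ X) ∧ (∀ x ∈ X, piAct ρ G w⁻¹ x ∈ X) ∧ φ w ∈ X}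
      one_mem' := by
        refine ⟨by simp, by simp, ?_⟩
        have : φ 1 = 0 := by funext v; exact h.map_one' v
        rw [this]; exact X.zero_mem
      mul_mem' := by
        rintro a b ⟨h1, h2, h3⟩ ⟨h4, h5, h6⟩
        refine ⟨fun x hx => ?_, fun x hx => ?_, ?_⟩
        · rw [map_mul, Module.End.mul_apply]; exact h1 _ (h4 _ hx)
        · rw [mul_inv_rev, map_mul, Module.End.mul_apply]; exact h5 _ (h2 _ hx)
        · have : φ (a * b) = φ a + piAct ρ G a (φ b) := by funext v; exact h.mul a b v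
          rw [this]; exact X.add_mem h3 (h1 _ h6)
      inv_mem' := by
        rintro a ⟨h1, h2, h3⟩
        refine ⟨h2, by simpa using h1, ?_⟩
        have : φ a⁻¹ = - piAct ρ G a⁻¹ (φ a) := by funext v; exact h.map_inv' a v
        rw [this]; exact X.neg_mem (h2 _ h3) }
  have hR0 : R 0 := ⟨fun g' => Commute.zero_left _, fun x _ => Q₀.zero_mem, fun x _ => Q₀₀.zero_mem⟩
  have hR1 : R 1 := ⟨fun g' => Commute.one_left _, fun x hx => hx, fun x hx => hx⟩
  have hDK : D ≤ K := by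
    intro d hd
    refine ⟨hXact d (hDQ₀ hd) (hDQ₀₀ hd) (hSD' d hd),
      hXact d⁻¹ (hDQ₀ (D.inv_mem hd)) (hDQ₀₀ (D.inv_mem hd)) (hSD' d⁻¹ (D.inv_mem hd)), ?_⟩
    refine ⟨φ d, Submodule.subset_span ⟨1, Subgroup.one_mem _, φ d, Submodule.subset_span ⟨d, hd, rfl⟩, ?_⟩,
      0, hR0, ?_⟩
    · rw [map_one, Module.End.one_apply]
    · funext v; simp
  have huK : u ∈ K := by
    have e1 : piAct ρ G u = piAct ρ G (g ^ M) := by
      apply LinearMap.ext; intro x; funext v; rw [piAct_apply, piAct_apply, hρu]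
    have e2 : piAct ρ G u⁻¹ = piAct ρ G (g ^ M)⁻¹ := by
      apply LinearMap.ext; intro x; funext v; rw [piAct_apply, piAct_apply, hρu']
    refine ⟨?_, ?_, ?_⟩
    · rw [e1]
      exact hXact _ (hgM _ hgQ₀) (hgM _ hgQ₀₀) (hSg _ (Subgroup.mem_zpowers _))
    · rw [e2]
      exact hXact _ (Subgroup.inv_mem _ (hgM _ hgQ₀)) (Subgroup.inv_mem _ (hgM _ hgQ₀₀))
        (hSg _ (Subgroup.inv_mem _ (Subgroup.mem_zpowers _)))
    · exact ⟨0, S.zero_mem, 1, hR1, by funext v; simp⟩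
  have hFX : Fs φ (D ⊔ Subgroup.zpowers u) ≤ X := by
    unfold Fs
    rw [Submodule.span_le]
    rintro _ ⟨w, hw, rfl⟩
    have hle : D ⊔ Subgroup.zpowers u ≤ K := sup_le hDK (Subgroup.zpowers_le.2 huK)
    exact (hle hw).2.2
  obtain ⟨ψ₁, hψ₁, f, hf, hψf⟩ := hFX hψF
  refine ⟨ψ₁, hψ₁, ?_⟩
  -- the values
  have hval : ∀ v ∈ W, f (φ u v) = θ v - ρ (g ^ M) (θ v) - ψ₁ v := by
    intro v hv
    have h1 := hψ v hv
    rw [hψf, Pi.add_apply, hρu] at h1
    rw [← h1]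
    show f (φ u v) = ψ₁ v + f (φ u v) - ψ₁ v
    abel
  set Θ : Module.End ℚ V := ∑ i ∈ Finset.range M, (ρ g) ^ i with hΘ
  have hΘc : ∀ f' : Module.End ℚ V, Commute f' (ρ g) → Commute f' Θ := by
    intro f' hf'
    rw [hΘ]
    exact Commute.sum_right _ _ _ fun i _ => hf'.pow_right i
  have hφu : ∀ v, φ u v = Θ (φ g v) + Θ (ρ g (n • (b' - ρ v b'))) := by
    intro v
    rw [hu, h.map_pow', map_mul, hb1, mul_one, h.mul, hbφ, map_add]
  have hΘst : ∀ x ∈ Q₀, Θ x ∈ Q₀ := by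
    intro x hx
    rw [hΘ, LinearMap.sum_apply]
    refine Q₀.sum_mem fun i _ => ?_
    rw [← map_pow]
    exact (Subgroup.pow_mem _ hgQ₀ i).1 x hx
  have hkill : ∀ v ∈ W, (∀ x ∈ Q₀, f (x - ρ v x) = 0) ∧ f (b' - ρ v b') = 0 := by
    intro v hv
    let hh : Module.End ℚ V := n • (f * Θ * ρ g * (1 - ρ v))
    have hh_apply : ∀ x, hh x = n • f (Θ (ρ g (x - ρ v x))) := by
      intro x; rfl
    have hΘρ : ∀ g', Commute Θ (ρ g') := fun g' => (hΘc (ρ g') (h.comm g' g)).symm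
    have hinj : ∀ y, f (Θ (ρ g y)) = Θ (ρ g (f y)) := by
      intro y
      have e1 : f (Θ (ρ g y)) = Θ (f (ρ g y)) := LinearMap.congr_fun (hΘc f (hf.1 g)).eq _
      have e2 : f (ρ g y) = ρ g (f y) := LinearMap.congr_fun (hf.1 g).eq _
      rw [e1, e2]
    have hzero : ∀ y, n • f (Θ (ρ g y)) = 0 → f y = 0 := by
      intro y hy
      rw [hinj, ← map_nsmul, ← map_nsmul, ← map_nsmul] at hy
      have h1 : ρ g (f (n • y)) = 0 := hU.theta_inj g M hM _ hy
      have h2 : f (n • y) = 0 := by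
        have := congrArg (ρ g⁻¹) h1
        rwa [UAct.inv_apply, map_zero] at this
      rw [map_nsmul, ← Nat.cast_smul_eq_nsmul ℚ] at h2
      rcases smul_eq_zero.1 h2 with h3 | h3
      · exact absurd h3 (by exact_mod_cast hn0.ne')
      · exact h3
    have hmem : hh b' ∈ Q₀ := by
      have h1 : hh b' = f (φ u v) - f (Θ (φ g v)) := by
        rw [hh_apply, hφu, map_add, add_sub_cancel_left, map_nsmul, map_nsmul, map_nsmul]
      rw [h1, hval v hv]
      refine Q₀.sub_mem (Q₀.sub_mem (Q₀.sub_mem (hθv v hv) ?_) (hSv _ hψ₁ v hv)) ?_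
      · exact (hgM _ hgQ₀).1 _ (hθv v hv)
      · exact hf.2.1 _ (hΘst _ (hgv v hv))
    have hcomm : ∀ g', Commute hh (ρ g') := by
      intro g'
      have h1 : Commute (1 - ρ v) (ρ g') := (Commute.one_left _).sub_left (h.comm v g')
      exact ((((hf.1 g').mul_left (hΘρ g')).mul_left (h.comm g g')).mul_left h1).smul_left n
    have hpres : ∀ x ∈ Q₀, hh x ∈ Q₀ := by
      intro x hx
      rw [hh_apply]
      refine Q₀.smul_of_tower_mem n (hf.2.1 _ (hΘst _ (hgQ₀.1 _ (Q₀.sub_mem hx ?_))))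
      exact (hWQ₀ v hv).1 x hx
    obtain ⟨h1, h2⟩ := hb' hh hcomm hpres hmem
    refine ⟨fun x hx => hzero _ ?_, hzero _ ?_⟩
    · rw [← hh_apply]; exact h1 x hx
    · rw [← hh_apply]; exact h2
  intro v hv
  have hvW : v ∈ W := Finset.mem_union_left _ hv
  have h1 : f (φ u v) = 0 := by
    have hy : f (φ g v) = 0 := by
      apply hW₁
      · exact hf.2.2 _ (hQ₀₀mem _ (Finset.mem_image_of_mem _ hv))
      · intro v' hv'
        have h2 := (hkill v' (Finset.mem_union_right _ hv')).1 _ (hgv v hvW)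
        rw [map_sub, sub_eq_zero] at h2
        have h3 : f (ρ v' (φ g v)) = ρ v' (f (φ g v)) := LinearMap.congr_fun (hf.1 v').eq _
        rw [← h3, ← h2]
    have e1 : f (Θ (φ g v)) = Θ (f (φ g v)) := LinearMap.congr_fun (hΘc f (hf.1 g)).eq _
    have e2 : f (Θ (ρ g (n • (b' - ρ v b')))) = Θ (ρ g (f (n • (b' - ρ v b')))) := by
      have e3 : f (Θ (ρ g (n • (b' - ρ v b')))) = Θ (f (ρ g (n • (b' - ρ v b')))) :=
        LinearMap.congr_fun (hΘc f (hf.1 g)).eq _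
      have e4 : f (ρ g (n • (b' - ρ v b'))) = ρ g (f (n • (b' - ρ v b'))) :=
        LinearMap.congr_fun (hf.1 g).eq _
      rw [e3, e4]
    rw [hφu, map_add, e1, e2, hy, map_nsmul, (hkill v hvW).2, smul_zero, map_zero, map_zero, map_zero,
      add_zero]
  have h2 := hval v hvW
  rw [h1] at h2
  exact (sub_eq_zero.1 h2.symm).symm

end Pool.Agent.Helper794NC
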